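import Mathlib

/-!
Row MinkA: the kernel of the reduction of integral matrices modulo `3` has no torsion (Minkowski).

Proof. With `C = A - 1` one has `(1 + C) ^ k = 1 + k • C + C ^ 2 * D`. If `3 ∤ k`, then `3 ^ j ∣ C`
implies `3 ^ (j + 1) ∣ C`; for `k = 3` the same follows from the binomial formula. So `C = 0`.
-/

set_option autoImplicit false
set_option linter.unusedSectionVars false

namespace Pool.Agent.Lib.MP_938ce2_ag_u4

namespace MinkAAux

/-- `C` is divisible by `3 ^ j` -/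
def Dv {n : ℕ} (j : ℕ) (C : Matrix (Fin n) (Fin n) ℤ) : Prop :=
  ∃ B : Matrix (Fin n) (Fin n) ℤ, C = ((3 : ℤ) ^ j) • B

theorem expand {n : ℕ} (C : Matrix (Fin n) (Fin n) ℤ) (k : ℕ) :
    ∃ D : Matrix (Fin n) (Fin n) ℤ, (1 + C) ^ k = 1 + (k : ℤ) • C + C * C * D := by
  induction k with
  | zero => exact ⟨0, by simp⟩
  | succ k ih =>
    obtain ⟨D, hD⟩ := ih
    refine ⟨D + (k : ℤ) • 1 + D * C, ?_⟩
    rw [pow_succ, hD]
    push_cast
    simp only [mul_add, add_mul, mul_one, one_mul, smul_mul_assoc, mul_smul_comm, add_smul, one_smul,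
      mul_assoc]
    abel

theorem dv_entry {n : ℕ} {j : ℕ} {C : Matrix (Fin n) (Fin n) ℤ} :
    Dv j C ↔ ∀ a b, (3 : ℤ) ^ j ∣ C a b := by
  constructor
  · rintro ⟨B, rfl⟩ a b
    exact ⟨B a b, by simp⟩
  · intro h
    choose B hB using h
    exact ⟨Matrix.of B, by ext a b; simpa using hB a b⟩

theorem all_zero {n : ℕ} {C : Matrix (Fin n) (Fin n) ℤ} (h : ∀ j, 1 ≤ j → Dv j C) : C = 0 := by
  ext a b
  by_contra hne
  have hne' : C a b ≠ 0 := by simpa using hne
  have h1 : ∀ j, 1 ≤ j → (3 : ℤ) ^ j ∣ C a b := fun j hj => dv_entry.1 (h j hj) a b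
  have h2 := h1 ((C a b).natAbs + 1) (by omega)
  have h3 := Int.le_of_dvd (by positivity : (0 : ℤ) < |C a b|) ((dvd_abs _ _).2 h2)
  have h4 : ((C a b).natAbs + 1 : ℕ) < 3 ^ ((C a b).natAbs + 1) := Nat.lt_pow_self (by norm_num)
  have h5 : |C a b| = ((C a b).natAbs : ℤ) := Int.abs_eq_natAbs _
  rw [h5] at h3
  have h6 : (3 : ℤ) ^ ((C a b).natAbs + 1) = ((3 ^ ((C a b).natAbs + 1) : ℕ) : ℤ) := by push_cast; rfl
  rw [h6] at h3
  have h7 : 3 ^ ((C a b).natAbs + 1) ≤ (C a b).natAbs := by exact_mod_cast h3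
  omega

theorem not_three {n : ℕ} {C : Matrix (Fin n) (Fin n) ℤ} {k : ℕ} (hk : ¬ 3 ∣ k)
    (hC : (1 + C) ^ k = 1) (h1 : Dv 1 C) : C = 0 := by
  obtain ⟨D, hD⟩ := expand C k
  rw [hC] at hD
  have e : (k : ℤ) • C = - (C * C * D) := by
    have : (k : ℤ) • C + C * C * D = 0 := by
      have h := hD
      rw [add_assoc] at h
      simpa using h
    exact eq_neg_of_add_eq_zero_left this
  apply all_zero
  intro j hj
  induction j, hj using Nat.le_induction with
  | base => exact h1
  | succ j hj ih =>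
    obtain ⟨B, hB⟩ := ih
    have e2 : (k : ℤ) • C = ((3 : ℤ) ^ (j + 1)) • (-((3 : ℤ) ^ (j - 1) • (B * B * D))) := by
      rw [e]
      nth_rewrite 1 [hB]
      nth_rewrite 1 [hB]
      simp only [smul_mul_assoc, mul_smul_comm, smul_smul, smul_neg]
      rw [← pow_add, ← pow_add]
      congr 3
      omega
    rw [dv_entry]
    intro a b
    have e3 := congrFun (congrFun e2 a) b
    simp only [Matrix.smul_apply, smul_eq_mul] at e3
    have hco : IsCoprime ((3 : ℤ) ^ (j + 1)) (k : ℤ) := by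
      apply IsCoprime.pow_left
      rw [Int.isCoprime_iff_gcd_eq_one]
      have := (Nat.Prime.coprime_iff_not_dvd Nat.prime_three).2 hk
      simpa [Int.gcd] using this
    exact hco.dvd_of_dvd_mul_left (by rw [e3]; exact dvd_mul_right _ _)

theorem three {n : ℕ} {C : Matrix (Fin n) (Fin n) ℤ}
    (hC : (1 + C) ^ 3 = 1) (h1 : Dv 1 C) : C = 0 := by
  have e : (3 : ℤ) • C = - ((3 : ℤ) • (C * C) + C * C * C) := by
    have h : (1 + C) ^ 3 = 1 + ((3 : ℤ) • C + ((3 : ℤ) • (C * C) + C * C * C)) := by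
      have h3 : (3 : ℤ) = 1 + 1 + 1 := by norm_num
      rw [h3]
      simp only [pow_succ, pow_zero, mul_add, add_mul, mul_one, one_mul, add_smul, one_smul,
        mul_assoc]
      abel
    rw [hC] at h
    have h' : (3 : ℤ) • C + ((3 : ℤ) • (C * C) + C * C * C) = 0 := by simpa using h
    exact eq_neg_of_add_eq_zero_left h'
  apply all_zero
  intro j hj
  induction j, hj using Nat.le_induction with
  | base => exact h1
  | succ j hj ih =>
    obtain ⟨B, hB⟩ := ih
    have e2 : (3 : ℤ) • C = ((3 : ℤ) ^ (j + 2)) • (-((3 : ℤ) ^ (j - 1) • (B * B) +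
        (3 : ℤ) ^ (2 * j - 2) • (B * B * B))) := by
      rw [e]
      have q1 : C * C = ((3 : ℤ) ^ j * 3 ^ j) • (B * B) := by
        rw [hB]; simp only [smul_mul_assoc, mul_smul_comm, smul_smul]
      have q2 : C * C * C = ((3 : ℤ) ^ j * 3 ^ j * 3 ^ j) • (B * B * B) := by
        rw [q1]; nth_rewrite 1 [hB]; simp only [smul_mul_assoc, mul_smul_comm, smul_smul, mul_assoc]
      rw [q2, q1]
      simp only [smul_smul, smul_neg, smul_add]
      congr 2
      · congr 1
        obtain ⟨i, rfl⟩ := Nat.exists_eq_add_of_le hj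
        rw [Nat.add_sub_cancel_left]
        ring
      · congr 1
        obtain ⟨i, rfl⟩ := Nat.exists_eq_add_of_le hj
        have : 2 * (1 + i) - 2 = 2 * i := by omega
        rw [this]
        ring
    rw [dv_entry]
    intro a b
    have e3 := congrFun (congrFun e2 a) b
    simp only [Matrix.smul_apply, smul_eq_mul] at e3
    have e4 : (3 : ℤ) ^ (j + 2) = 3 * 3 ^ (j + 1) := by ring
    rw [e4, mul_assoc] at e3
    have e5 := mul_left_cancel₀ (by norm_num : (3 : ℤ) ≠ 0) e3
    rw [e5]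
    exact dvd_mul_right _ _

end MinkAAux

open MinkAAux in
theorem mink_torsion {n : ℕ} (A : Matrix (Fin n) (Fin n) ℤ) (k : ℕ) (hk : 0 < k) (hA : A ^ k = 1)
    (h3 : ∀ i j, (3 : ℤ) ∣ (A - 1) i j) : A = 1 := by
  induction k using Nat.strong_induction_on with
  | _ k ih =>
    by_cases h : 3 ∣ k
    · obtain ⟨m, rfl⟩ := h
      have hm : 0 < m := by omega
      have hA3 : (A ^ m) ^ 3 = 1 := by rw [← pow_mul, mul_comm m 3]; exact hA
      have hd : Dv 1 (A ^ m - 1) := by
        obtain ⟨D, hD⟩ := expand (A - 1) m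
        obtain ⟨B, hB⟩ : Dv 1 (A - 1) := dv_entry.2 (by simpa using h3)
        have e : A ^ m - 1 = (m : ℤ) • (A - 1) + (A - 1) * (A - 1) * D := by
          have : 1 + (A - 1) = A := by abel
          rw [this] at hD
          rw [hD]; abel
        refine ⟨(m : ℤ) • B + B * (A - 1) * D, ?_⟩
        rw [e]
        nth_rewrite 1 [hB]
        nth_rewrite 1 [hB]
        rw [smul_add]
        simp only [smul_mul_assoc]
        rw [smul_comm]
      have h1 : A ^ m - 1 = 0 := three (by
        have : 1 + (A ^ m - 1) = A ^ m := by abel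
        rw [this]; exact hA3) hd
      exact ih m (by omega) hm (sub_eq_zero.1 h1)
    · have h1 : A - 1 = 0 := not_three h (by
        have : 1 + (A - 1) = A := by abel
        rw [this]; exact hA) (dv_entry.2 (by simpa using h3))
      exact sub_eq_zero.1 h1

end Pool.Agent.Lib.MP_938ce2_ag_u4
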