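import Mathlib
import Pool.Agent.Lib.MP_938ce2_ag_u4.MinkA
import Pool.Agent.Lib.MP_938ce2_ag_u2.ThreeC

/-!
Row MinkB: the order of a finite group with a faithful representation over `ℚ` of degree `n` is at
most `3 ^ (n * n)` (Minkowski).

`card_le_of_faithful`: let `b` be a basis of `V` (`Module.finBasis ℚ V`), `Λ` the `ℤ`-span of all
`ρ σ (b i)`: finitely generated, stable, spans `V`; torsion free, hence free over `ℤ` of rank
`finrank ℚ V` (see `Submodule.IsLattice` in `Mathlib.Algebra.Module.Lattice`). A `ℤ`-basis of `Λ`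
gives `Γ →* Matrix (Fin n) (Fin n) ℤ`, injective; reduce modulo `3` (`Int.castRingHom (ZMod 3)`,
`RingHom.mapMatrix`), injective by `mink_torsion` (applied to the matrix of `σ⁻¹ * τ`,
`pow_card_eq_one`), and `Fintype.card (Matrix (Fin n) (Fin n) (ZMod 3)) = 3 ^ (n * n)`.
`index_le_mink`: `Γ = G ⧸ kerM M`, `V = M`; the injective action `rho M`, `rho_inj M` of
`G ⧸ kerM M` is in `MP_938ce2_ag_u2/ThreeC.lean` (namespace `ThreeCAux`).
-/

set_option autoImplicit false
set_option linter.unusedSectionVars false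

namespace Pool.Agent.Lib.MP_938ce2_ag_u4

open Finset Module MonoidAlgebra
open Pool.Agent.Lib.MP_938ce2_ag_h67 (sg VV ev mkV Orb red kerM)
open Pool.Agent.Lib.MP_938ce2_ag_u2 (Act OddM badC mem_badC dM dE dH)

namespace MinkBAux

section
variable {Γ V : Type} [Group Γ] [Fintype Γ] [AddCommGroup V] [Module ℚ V] [Module.Finite ℚ V]
  (ρ : Γ →* (V →ₗ[ℚ] V))

/-- the stable lattice -/
noncomputable def lat : Submodule ℤ V :=
  Submodule.span ℤ (Set.range (fun p : Γ × Fin (finrank ℚ V) => ρ p.1 (Module.finBasis ℚ V p.2)))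

theorem lat_lattice : Submodule.IsLattice ℚ (lat ρ) where
  fg := Submodule.fg_span (Set.finite_range _)
  span_eq_top := by
    rw [eq_top_iff, ← (Module.finBasis ℚ V).span_eq]
    apply Submodule.span_mono
    rintro _ ⟨i, rfl⟩
    apply Submodule.subset_span
    refine ⟨(1, i), ?_⟩
    show ρ 1 (Module.finBasis ℚ V i) = _
    rw [map_one]
    rfl

theorem lat_stable (σ : Γ) : ∀ x ∈ lat ρ, (ρ σ).restrictScalars ℤ x ∈ lat ρ := by
  intro x hx
  unfold lat at hx ⊢
  induction hx using Submodule.span_induction with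
  | mem x h =>
    obtain ⟨⟨τ, i⟩, rfl⟩ := h
    apply Submodule.subset_span
    refine ⟨(σ * τ, i), ?_⟩
    show ρ (σ * τ) (Module.finBasis ℚ V i) = ρ σ (ρ τ (Module.finBasis ℚ V i))
    rw [map_mul]
    rfl
  | zero => rw [map_zero]; exact Submodule.zero_mem _
  | add x y _ _ h1 h2 => rw [map_add]; exact Submodule.add_mem _ h1 h2
  | smul a x _ h => rw [map_smul]; exact Submodule.smul_mem _ a h

/-- the action on the lattice -/
noncomputable def act (σ : Γ) : lat ρ →ₗ[ℤ] lat ρ :=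
  ((ρ σ).restrictScalars ℤ).restrict (lat_stable ρ σ)

theorem act_coe (σ : Γ) (x : lat ρ) : ((act ρ σ x : lat ρ) : V) = ρ σ x := rfl

theorem act_mul (σ τ : Γ) : act ρ (σ * τ) = act ρ σ * act ρ τ := by
  apply LinearMap.ext
  intro x
  apply Subtype.ext
  show ρ (σ * τ) x = ρ σ (ρ τ x)
  rw [map_mul]
  rfl

theorem act_one : act ρ 1 = 1 := by
  apply LinearMap.ext
  intro x
  apply Subtype.ext
  show ρ 1 x = x
  rw [map_one]
  rfl

theorem exists_basis : Nonempty (Basis (Fin (finrank ℚ V)) ℤ (lat ρ)) := by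
  have h := lat_lattice ρ
  have hfree : Module.Free ℤ (lat ρ) := Submodule.IsLattice.free (K := ℚ) (lat ρ)
  have hfin : Module.Finite ℤ (lat ρ) := Submodule.IsLattice.finite ℚ (lat ρ)
  have hr : finrank ℤ (lat ρ) = finrank ℚ V := by
    unfold Module.finrank
    rw [Submodule.IsLattice.rank' (K := ℚ) (lat ρ)]
  exact ⟨Module.finBasisOfFinrankEq ℤ (lat ρ) hr⟩

/-- the basis of the lattice -/
noncomputable def bas : Basis (Fin (finrank ℚ V)) ℤ (lat ρ) :=
  Classical.choice (exists_basis ρ)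

/-- the integral matrices -/
noncomputable def mat (σ : Γ) : Matrix (Fin (finrank ℚ V)) (Fin (finrank ℚ V)) ℤ :=
  LinearMap.toMatrix (bas ρ) (bas ρ) (act ρ σ)

theorem mat_mul (σ τ : Γ) : mat ρ (σ * τ) = mat ρ σ * mat ρ τ := by
  unfold mat
  rw [act_mul, LinearMap.toMatrix_mul]

theorem mat_one : mat ρ 1 = 1 := by
  unfold mat
  rw [act_one, LinearMap.toMatrix_one]

theorem mat_pow (σ : Γ) (k : ℕ) : mat ρ σ ^ k = mat ρ (σ ^ k) := by
  induction k with
  | zero => rw [pow_zero, pow_zero, mat_one]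
  | succ k ih => rw [pow_succ, pow_succ, mat_mul, ih]

theorem mat_inj (hρ : Function.Injective ρ) (σ τ : Γ) (h : mat ρ σ = mat ρ τ) : σ = τ := by
  have h1 : act ρ σ = act ρ τ := (LinearMap.toMatrix (bas ρ) (bas ρ)).injective h
  apply hρ
  have h0 := lat_lattice ρ
  apply ((bas ρ).extendOfIsLattice ℚ).ext
  intro i
  rw [Basis.extendOfIsLattice_apply, ← act_coe, ← act_coe, h1]

end

end MinkBAux

open MinkBAux

theorem card_le_of_faithful {Γ V : Type} [Group Γ] [Fintype Γ] [AddCommGroup V] [Module ℚ V]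
    [Module.Finite ℚ V] (ρ : Γ →* (V →ₗ[ℚ] V)) (hρ : Function.Injective ρ) :
    Nat.card Γ ≤ 3 ^ (finrank ℚ V * finrank ℚ V) := by
  classical
  set n := finrank ℚ V with hn
  let F : Γ → Matrix (Fin n) (Fin n) (ZMod 3) := fun σ => (mat ρ σ).map (Int.castRingHom (ZMod 3))
  have hF : Function.Injective F := by
    intro σ τ h
    have h1 : ∀ i j, (3 : ℤ) ∣ (mat ρ τ - mat ρ σ) i j := by
      intro i j
      have h2 : ((mat ρ σ i j : ℤ) : ZMod 3) = ((mat ρ τ i j : ℤ) : ZMod 3) :=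
        congrFun (congrFun h i) j
      rw [Matrix.sub_apply]
      exact (ZMod.intCast_eq_intCast_iff_dvd_sub _ _ 3).mp h2
    have h3 : mat ρ (σ⁻¹ * τ) - 1 = mat ρ σ⁻¹ * (mat ρ τ - mat ρ σ) := by
      rw [Matrix.mul_sub, ← mat_mul, ← mat_mul, inv_mul_cancel, mat_one]
    have h4 : ∀ i j, (3 : ℤ) ∣ (mat ρ (σ⁻¹ * τ) - 1) i j := by
      intro i j
      rw [h3, Matrix.mul_apply]
      exact Finset.dvd_sum fun k _ => Dvd.dvd.mul_left (h1 k j) _
    have h5 : mat ρ (σ⁻¹ * τ) = 1 := by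
      apply mink_torsion _ (Fintype.card Γ) Fintype.card_pos _ h4
      rw [mat_pow, pow_card_eq_one, mat_one]
    have h6 : σ⁻¹ * τ = 1 := mat_inj ρ hρ _ _ (by rw [h5, mat_one])
    exact (inv_mul_eq_one.mp h6)
  have h7 := Nat.card_le_card_of_injective F hF
  have h8 : Nat.card (Matrix (Fin n) (Fin n) (ZMod 3)) = 3 ^ (n * n) := by
    have e : Nat.card (Matrix (Fin n) (Fin n) (ZMod 3)) =
        Nat.card (Fin n → Fin n → ZMod 3) := rfl
    rw [e, Nat.card_eq_fintype_card, Fintype.card_fun, Fintype.card_fun, Fintype.card_fin,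
      ZMod.card, ← pow_mul]
  rw [h8] at h7
  exact h7

variable {G X : Type} [Group G] [Fintype G] [MulAction G X] [Fintype X] [DecidableEq X]

theorem index_le_mink (M : Submodule (MonoidAlgebra ℚ G) (VV ℚ G X)) :
    (kerM M).index ≤ 3 ^ (dM M * dM M) := by
  classical
  let _ : Fintype (G ⧸ kerM M) := Fintype.ofFinite _
  have hfin : Module.Finite ℚ M := Module.Finite.of_injective (M.subtype.restrictScalars ℚ)
    Subtype.val_injective
  exact card_le_of_faithful (Pool.Agent.Lib.MP_938ce2_ag_u2.ThreeCAux.rho M)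
    (Pool.Agent.Lib.MP_938ce2_ag_u2.ThreeCAux.rho_inj M)

end Pool.Agent.Lib.MP_938ce2_ag_u4
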