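import Mathlib
import Pool.Agent.Lib.MP_938ce2_ag_u3.Defs3

/-!
Definitions for the count of the degenerate CM types over an arbitrary CM field, second form.
-/

set_option autoImplicit false
set_option linter.unusedSectionVars false

namespace Pool.Agent.Lib.MP_938ce2_ag_u4

/-- an absolutely irreducible representation `ρ` of `G` over `ℚ` (only the scalar matrices commute
with it) which is trivial on the stabilizers of the points of `X` and maps `c` to `-1` -/
def OddRep (G X : Type) [Group G] [MulAction G X] (c : G) {m : ℕ}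
    (ρ : G →* Matrix (Fin m) (Fin m) ℚ) : Prop :=
  ρ c = -1 ∧ (∀ (τ : G) (x : X), τ • x = x → ρ τ = 1) ∧
    ∀ A : Matrix (Fin m) (Fin m) ℚ, (∀ σ : G, A * ρ σ = ρ σ * A) → ∃ a : ℚ, A = a • 1

end Pool.Agent.Lib.MP_938ce2_ag_u4
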