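import Mathlib
import Pool.Agent.Lib.MP_938ce2_ag_u4.Defs4

/-!
Simple modules with the same character are isomorphic.
-/

set_option autoImplicit false
set_option linter.unusedSectionVars false

namespace Pool.Agent.Lib.MP_938ce2_ag_u4

open Finset Module MonoidAlgebra
open Pool.Agent.Lib.MP_938ce2_ag_h67 (sg VV ev mkV Orb red kerM actL actL_apply actL_mul actL_one)

variable {G X : Type} [Group G] [Fintype G] [MulAction G X] [Fintype X] [DecidableEq X]

/-- the representation on a submodule -/
noncomputable def repL (M : Submodule (MonoidAlgebra ℚ G) (VV ℚ G X)) : Representation ℚ G M where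
  toFun σ := actL M σ
  map_one' := actL_one M
  map_mul' σ τ := actL_mul M σ τ

theorem iso_of_trace (M M' : Submodule (MonoidAlgebra ℚ G) (VV ℚ G X))
    (hs : IsSimpleModule (MonoidAlgebra ℚ G) M) (hs' : IsSimpleModule (MonoidAlgebra ℚ G) M')
    (h : ∀ σ : G, LinearMap.trace ℚ M (actL M σ) = LinearMap.trace ℚ M' (actL M' σ)) :
    Nonempty (M ≃ₗ[MonoidAlgebra ℚ G] M') := by
  classical
  have hf : FiniteDimensional ℚ M := Module.Finite.of_injective (M.subtype.restrictScalars ℚ)
    Subtype.val_injective
  have hf' : FiniteDimensional ℚ M' := Module.Finite.of_injective (M'.subtype.restrictScalars ℚ)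
    Subtype.val_injective
  have hinv : Invertible (Nat.card G : ℚ) :=
    invertibleOfNonzero (by exact_mod_cast Nat.card_pos.ne')
  have h1 := Representation.card_inv_mul_sum_char_mul_char_eq_finrank (repL M) (repL M)
  have h2 := Representation.card_inv_mul_sum_char_mul_char_eq_finrank (repL M) (repL M')
  have h3 : ∀ σ, (repL M').character σ = (repL M).character σ := fun σ => (h σ).symm
  simp only [h3] at h2
  rw [h1] at h2
  have h4 : finrank ℚ (Representation.IntertwiningMap (repL M) (repL M))
      = finrank ℚ (Representation.IntertwiningMap (repL M) (repL M')) := by exact_mod_cast h2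
  obtain ⟨v, hv⟩ := IsSimpleModule.nontrivial (MonoidAlgebra ℚ G) M |>.exists_pair_ne |>
    fun ⟨a, b, hab⟩ => (⟨a - b, sub_ne_zero.mpr hab⟩ : ∃ v : M, v ≠ 0)
  have hid : (LinearMap.intertwiningMap_of_isIntertwiningMap (repL M) (repL M) LinearMap.id
      (fun _ _ => rfl)) ≠ 0 := by
    intro h0
    apply hv
    have := congrArg (fun f : Representation.IntertwiningMap (repL M) (repL M) =>
      f.toLinearMap v) h0
    exact this
  have h5 : 0 < finrank ℚ (Representation.IntertwiningMap (repL M) (repL M)) := by
    have : Nontrivial (Representation.IntertwiningMap (repL M) (repL M)) := ⟨⟨_, _, hid⟩⟩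
    have : Module.Finite ℚ (Representation.IntertwiningMap (repL M) (repL M)) := inferInstance
    exact Module.finrank_pos (R := ℚ) (M := Representation.IntertwiningMap (repL M) (repL M))
  have h6 : ∃ f : Representation.IntertwiningMap (repL M) (repL M'), f ≠ 0 := by
    by_contra hcon
    push Not at hcon
    have : Subsingleton (Representation.IntertwiningMap (repL M) (repL M')) :=
      ⟨fun a b => by rw [hcon a, hcon b]⟩
    rw [finrank_zero_of_subsingleton
      (M := Representation.IntertwiningMap (repL M) (repL M'))] at h4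
    omega
  obtain ⟨f, hf0⟩ := h6
  let T : M →ₗ[MonoidAlgebra ℚ G] M' :=
    MonoidAlgebra.equivariantOfLinearOfComm f.toLinearMap (by
      intro σ v
      exact congrArg (fun t : M →ₗ[ℚ] M' => t v) (f.isIntertwining' σ))
  have hT : T ≠ 0 := by
    intro h0
    apply hf0
    apply Representation.IntertwiningMap.ext
    apply LinearMap.ext
    intro v
    exact congrArg (fun t : M →ₗ[MonoidAlgebra ℚ G] M' => t v) h0
  exact ⟨LinearEquiv.ofBijective T (LinearMap.bijective_of_ne_zero hT)⟩

end Pool.Agent.Lib.MP_938ce2_ag_u4
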