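import Mathlib
import Pool.Agent.Lib.MP_938ce2_ag_u4.Defs4
import Pool.Agent.Lib.MP_938ce2_ag_u2.ThreeC

/-!
An odd module with scalar endomorphisms which is trivial on the stabilizers gives a representation by
matrices.
-/

set_option autoImplicit false
set_option linter.unusedSectionVars false

namespace Pool.Agent.Lib.MP_938ce2_ag_u4

open Finset Module MonoidAlgebra
open Pool.Agent.Lib.MP_938ce2_ag_h67 (sg VV ev mkV Orb red kerM)
open Pool.Agent.Lib.MP_938ce2_ag_h60 (CMType)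
open Pool.Agent.Lib.MP_938ce2_ag_u2 (Act OddM badC mem_badC dM dE dH)

variable {G X : Type} [Group G] [Fintype G] [MulAction G X] [Fintype X] [DecidableEq X] {c : G}
  {g : ℕ} [MulAction.IsPretransitive G X]

namespace RepRAux

open Pool.Agent.Lib.MP_938ce2_ag_h67 (actL actL_apply actL_mul actL_one finrank_range_add_le)

/-- the representation by matrices -/
noncomputable def rep (M : Submodule (MonoidAlgebra ℚ G) (VV ℚ G X)) {m : ℕ}
    (b : Basis (Fin m) ℚ M) : G →* Matrix (Fin m) (Fin m) ℚ where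
  toFun σ := LinearMap.toMatrixAlgEquiv b (actL M σ)
  map_one' := by rw [actL_one, map_one]
  map_mul' σ τ := by rw [actL_mul, map_mul]

lemma rep_apply (M : Submodule (MonoidAlgebra ℚ G) (VV ℚ G X)) {m : ℕ}
    (b : Basis (Fin m) ℚ M) (σ : G) : rep M b σ = LinearMap.toMatrixAlgEquiv b (actL M σ) := rfl

lemma rep_eq_one (M : Submodule (MonoidAlgebra ℚ G) (VV ℚ G X)) {m : ℕ}
    (b : Basis (Fin m) ℚ M) (σ : G) : rep M b σ = 1 ↔ σ ∈ kerM M := by
  rw [Pool.Agent.Lib.MP_938ce2_ag_u2.ThreeAAux.mem_kerM_iff, rep_apply]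
  constructor
  · intro h
    exact (LinearMap.toMatrixAlgEquiv b).injective (h.trans (map_one _).symm)
  · intro h
    rw [h, map_one]

lemma rep_scalar (M : Submodule (MonoidAlgebra ℚ G) (VV ℚ G X)) (hm : 0 < dM M)
    (h1 : dE M = 1) {m : ℕ} (b : Basis (Fin m) ℚ M) (A : Matrix (Fin m) (Fin m) ℚ)
    (hA : ∀ σ : G, A * rep M b σ = rep M b σ * A) : ∃ a : ℚ, A = a • 1 := by
  have hntM : Nontrivial M := Module.nontrivial_of_finrank_pos hm
  have hid : (LinearMap.id : M →ₗ[MonoidAlgebra ℚ G] M) ≠ 0 := by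
    obtain ⟨x, hx⟩ := exists_ne (0 : M)
    exact fun h => hx (congrArg (fun f : M →ₗ[MonoidAlgebra ℚ G] M => f x) h)
  let T : M →ₗ[ℚ] M := (LinearMap.toMatrixAlgEquiv b).symm A
  have hTA : LinearMap.toMatrixAlgEquiv b T = A := (LinearMap.toMatrixAlgEquiv b).apply_symm_apply A
  have hcomm : ∀ σ : G, T * actL M σ = actL M σ * T := by
    intro σ
    apply (LinearMap.toMatrixAlgEquiv b).injective
    rw [map_mul, map_mul, hTA]
    exact hA σ
  let T' : M →ₗ[MonoidAlgebra ℚ G] M :=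
    MonoidAlgebra.equivariantOfLinearOfComm T (by
      intro σ v
      exact congrArg (fun t : M →ₗ[ℚ] M => t v) (hcomm σ))
  have hT' : ∀ v, T' v = T v := fun v => rfl
  obtain ⟨z, hz⟩ := (finrank_eq_one_iff_of_nonzero' _ hid).mp h1 T'
  refine ⟨z, ?_⟩
  have hTz : T = z • (1 : M →ₗ[ℚ] M) := by
    apply LinearMap.ext
    intro v
    rw [← hT', ← hz]
    rfl
  rw [← hTA, hTz, map_smul, map_one]

end RepRAux

open RepRAux

open Pool.Agent.Lib.MP_938ce2_ag_h67 (actL) in
theorem exists_oddRep (hA : Act G X c g) (M : Submodule (MonoidAlgebra ℚ G) (VV ℚ G X))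
    (hodd : OddM c M) (hm : 0 < dM M) (heq : dH M = dM M) (h1 : dE M = 1) :
    ∃ ρ : G →* Matrix (Fin (dM M)) (Fin (dM M)) ℚ, OddRep G X c ρ ∧
      ∀ σ : G, (ρ σ).trace = LinearMap.trace ℚ M (actL M σ) := by
  have hfin : Module.Finite ℚ M := Module.Finite.of_injective (M.subtype.restrictScalars ℚ)
    Subtype.val_injective
  refine ⟨rep M (Module.finBasis ℚ M), ⟨?_, ?_, rep_scalar M hm h1 _⟩, ?_⟩
  · rw [rep_apply, Pool.Agent.Lib.MP_938ce2_ag_u2.ThreeCAux.actL_c hA M hodd]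
    exact (map_neg (LinearMap.toMatrixAlgEquiv (Module.finBasis ℚ M)) (1 : Module.End ℚ M)).trans
      (by rw [map_one])
  · intro τ x hτ
    have h2 := Pool.Agent.Lib.MP_938ce2_ag_h67.finrank_range_add_le M τ x hτ
    have h3 : finrank ℚ (LinearMap.range (Pool.Agent.Lib.MP_938ce2_ag_h67.actL M τ - 1)) = 0 := by
      unfold dH dM at heq
      omega
    rw [Submodule.finrank_eq_zero, LinearMap.range_eq_bot] at h3
    rw [rep_eq_one, Pool.Agent.Lib.MP_938ce2_ag_u2.ThreeAAux.mem_kerM_iff]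
    exact sub_eq_zero.mp h3
  · intro σ
    rw [rep_apply]
    exact (LinearMap.trace_eq_matrix_trace ℚ (Module.finBasis ℚ M) _).symm

end Pool.Agent.Lib.MP_938ce2_ag_u4
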