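import Mathlib

/-!
Data of a type with `h = m`, `d ≥ 3`.
-/

set_option autoImplicit false
set_option linter.unusedSectionVars false

namespace Pool.Agent.Lib.MP_938ce2_ag_u4

open Finset Real

/-- the data of one isotypic type which is trivial on the stabilizers -/
structure DataR (g m k d o n s : ℕ) (N : ℝ) : Prop where
  hk : 1 ≤ k
  hd : 3 ≤ d
  hm : m = k * d
  ho : 1 ≤ o
  hog : o ≤ 2 * g
  hB : ∀ q : ℕ, q.Prime → q ≠ 2 → ¬ q ∣ o →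
    N ≤ (1 + ((q : ℝ) - 1) * Real.exp (-(2 * g / (m * (q : ℝ) ^ 2)))) ^ m / ((q : ℝ) - 1) ^ d
  hn : 1 ≤ n
  hs : 1 ≤ s
  hns : n ≤ k * s
  hC1 : N ≤ (9 / 2) * n * n / (g : ℝ) ^ (1 / 4 : ℝ)
  hC2 : ∀ t : ℝ, 0 < t → N * (s : ℝ) ^ 2 ≤ n * n * t + n / 4 + 5 * n * n / (√(g : ℝ) * √t)

end Pool.Agent.Lib.MP_938ce2_ag_u4
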