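import Mathlib
import Pool.Agent.Lib.MP_938ce2_ag_u3.Main3
import Pool.Agent.Lib.MP_938ce2_ag_u4.NumR

/-!
Row DataR: the data of a type with `h = m`, `d ≥ 3`.

Model: `exists_data3` in `MP_938ce2_ag_u3/Main3.lean`. `numbers` gives `n κ s` with `κ ≤ n` and
`dH M * n ≤ κ * dM M`; as `dH M = dM M > 0`, `κ = n`. `hB`: `bad_le_odd` with
`dE M + dM M - dH M = dE M`. `hog`: `index_eq` and `Nat.card (Orb (kerM M) X) ≤ Nat.card X = 2 * g`
(`Orb.mk_surj`).
-/

set_option autoImplicit false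
set_option linter.unusedSectionVars false

namespace Pool.Agent.Lib.MP_938ce2_ag_u4

open Finset Module MonoidAlgebra
open Pool.Agent.Lib.MP_938ce2_ag_h67 (sg VV ev mkV Orb red kerM)
open Pool.Agent.Lib.MP_938ce2_ag_h60 (CMType)
open Pool.Agent.Lib.MP_938ce2_ag_u2 (Act OddM badC mem_badC dM dE dH)
open Pool.Agent.Lib.MP_938ce2_ag_u2 (numbers bad_le_odd index_eq)

variable {G X : Type} [Group G] [Fintype G] [MulAction G X] [Fintype X] [DecidableEq X] {c : G}
  {g : ℕ} [MulAction.IsPretransitive G X]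

theorem exists_dataR (hA : Act G X c g) (M : Submodule (MonoidAlgebra ℚ G) (VV ℚ G X))
    (hs : IsSimpleModule (MonoidAlgebra ℚ G) M) (hodd : OddM c M) (k : ℕ) (hk1 : 1 ≤ k)
    (hk : dH M = k * dE M) (heq : dH M = dM M) (hd : 3 ≤ dE M) :
    ∃ n s : ℕ, DataR g (dM M) k (dE M) (kerM M).index n s
      (((badC c M).card : ℝ) / 2 ^ g) := by
  classical
  have hm : 0 < dM M := by
    rw [← heq, hk]
    exact Nat.mul_pos (by omega) (by omega)
  obtain ⟨n, κ, s, h1, h2, h3, h4, h5, h6, h7, h8, h9⟩ := numbers hA M hs hodd k hk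
  have hκ : κ = n := by
    rw [heq, Nat.mul_comm] at h6
    exact le_antisymm h2 (Nat.le_of_mul_le_mul_right h6 hm)
  subst hκ
  refine ⟨κ, s, ⟨hk1, hd, by omega, ?_, ?_, ?_, h1, h4, h5, h8, h9⟩⟩
  · exact Nat.one_le_iff_ne_zero.mpr Subgroup.index_ne_zero_of_finite
  · rw [index_eq hA M hm heq]
    have h10 := Nat.card_le_card_of_surjective _
      (Pool.Agent.Lib.MP_938ce2_ag_h67.Orb.mk_surj (Ω := X) (kerM M))
    rw [Nat.card_eq_fintype_card (α := X), hA.card] at h10
    exact h10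
  · intro q hq hq2 hqo
    have h10 := bad_le_odd hA M hodd hm heq.le q hq hq2 hqo
    have h11 : dE M + dM M - dH M = dE M := by omega
    rw [h11] at h10
    exact h10

end Pool.Agent.Lib.MP_938ce2_ag_u4
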