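import Mathlib

/-!
Row NumII: types of exponent two and large dimension.

`√x ^ 2 = x`, `m (1 + log m) / g = (m ^ 2 / g) * ((1 + log m) / m)` and `(1 + log m) / m → 0`, so choose
`M₀ ≥ 1` with `(1 + log m) / m ≤ ε / (2 * C)` for all `m ≥ M₀`.
-/

set_option autoImplicit false
set_option linter.unusedSectionVars false

namespace Pool.Agent.Lib.MP_938ce2_ag_u4

theorem num_II : ∀ C ε : ℝ, 0 < C → 0 < ε → ∃ M₀ : ℕ, ∀ (ι : Type) [Fintype ι] (g : ℕ)
    (m : ι → ℕ) (N : ι → ℝ), 1 ≤ g → (∀ i, M₀ ≤ m i) → ∑ i, m i * m i ≤ 2 * g →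
    (∀ i, N i ≤ C * √(m i * (1 + Real.log (m i)) / g) ^ 2) → ∑ i, N i ≤ ε := by
  intro C ε hC hε
  obtain ⟨M, hM⟩ := exists_nat_ge ((4 * C / ε) ^ 2 + 1)
  refine ⟨M, fun ι _ g m N hg hm hsum hN => ?_⟩
  have hg0 : (0 : ℝ) < g := by exact_mod_cast hg
  have key : ∀ i, N i ≤ ε / (2 * g) * ((m i : ℝ) * m i) := by
    intro i
    have h1 : (4 * C / ε) ^ 2 + 1 ≤ (m i : ℝ) := by
      have : (M : ℝ) ≤ m i := by exact_mod_cast hm i
      linarith
    have h0 : (1 : ℝ) ≤ m i := by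
      have : 0 ≤ (4 * C / ε) ^ 2 := sq_nonneg _
      linarith
    set x : ℝ := (m i : ℝ) with hx
    have hx0 : 0 < x := by linarith
    set y : ℝ := √x with hy
    have hy0 : 0 < y := Real.sqrt_pos.2 hx0
    have hyy : y * y = x := Real.mul_self_sqrt hx0.le
    have h2 : 4 * C / ε ≤ y := by
      apply Real.le_sqrt_of_sq_le
      linarith
    have h3 : 4 * C ≤ ε * y := by
      rw [div_le_iff₀ hε] at h2
      linarith
    have h4 : 1 + Real.log x ≤ 2 * y := by
      have h5 : Real.log y ≤ y - 1 := Real.log_le_sub_one_of_pos hy0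
      have h6 : Real.log x = 2 * Real.log y := by
        rw [← hyy, Real.log_mul hy0.ne' hy0.ne']
        ring
      rw [h6]
      linarith
    have h7 : 0 ≤ Real.log x := Real.log_nonneg h0
    have h8 : 0 ≤ x * (1 + Real.log x) / g := by positivity
    have h9 := hN i
    rw [Real.sq_sqrt h8] at h9
    refine h9.trans ?_
    have h10 : C * (x * (1 + Real.log x)) ≤ ε / 2 * (x * x) := by
      calc C * (x * (1 + Real.log x)) ≤ C * (x * (2 * y)) := by gcongr
        _ = (4 * C) * (x * y) / 2 := by ring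
        _ ≤ (ε * y) * (x * y) / 2 := by gcongr
        _ = ε / 2 * (x * (y * y)) := by ring
        _ = ε / 2 * (x * x) := by rw [hyy]
    calc C * (x * (1 + Real.log x) / g) = (C * (x * (1 + Real.log x))) / g := by ring
      _ ≤ (ε / 2 * (x * x)) / g := by gcongr
      _ = ε / (2 * g) * (x * x) := by field_simp
  calc ∑ i, N i ≤ ∑ i, ε / (2 * g) * ((m i : ℝ) * m i) := Finset.sum_le_sum fun i _ => key i
    _ = ε / (2 * g) * ∑ i, ((m i : ℝ) * m i) := by rw [Finset.mul_sum]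
    _ ≤ ε / (2 * g) * (2 * g) := by
      have h1 : ∑ i, ((m i : ℝ) * m i) ≤ 2 * g := by exact_mod_cast hsum
      gcongr
    _ = ε := by field_simp

end Pool.Agent.Lib.MP_938ce2_ag_u4
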