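import Mathlib
import Pool.Agent.Lib.MP_938ce2_ag_u2.NumPrime
import Pool.Agent.Lib.MP_938ce2_ag_u4.NumR

/-!
Row NumR1: types with `h = m`, `d ≥ 3` and `m ≤ g / (log g) ^ 5`.
-/

set_option autoImplicit false
set_option linter.unusedSectionVars false

namespace Pool.Agent.Lib.MP_938ce2_ag_u4

open Finset Real
open Pool.Agent.Lib.MP_938ce2_ag_u2 (exists_prime_not_dvd)

namespace NumR1Aux

/-- growth facts -/
theorem ev (Y₀ : ℝ) : ∃ g₀ : ℕ, ∀ g : ℕ, g₀ ≤ g →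
    100 ≤ Real.log g ∧ Y₀ ≤ Real.log g ^ 2 ∧
      4 * (24 ^ 5) ^ 2 * Real.log g ^ 23 ≤ g := by
  have hlog : Filter.Tendsto (fun g : ℕ => Real.log (g : ℝ)) Filter.atTop Filter.atTop :=
    Real.tendsto_log_atTop.comp tendsto_natCast_atTop_atTop
  have h1 : ∀ᶠ x : ℝ in Filter.atTop, ‖Real.log x ^ 23‖ ≤ (1 / (4 * (24 ^ 5) ^ 2)) * ‖id x‖ :=
    (Real.isLittleO_pow_log_id_atTop (n := 23)).def (by norm_num)
  have h2 := tendsto_natCast_atTop_atTop.eventually h1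
  obtain ⟨g₀, hg₀⟩ := Filter.eventually_atTop.1
    ((h2.and (hlog.eventually_ge_atTop 100)).and (hlog.eventually_ge_atTop Y₀))
  refine ⟨g₀, fun g hg => ?_⟩
  obtain ⟨⟨h3, h4⟩, h5⟩ := hg₀ g hg
  refine ⟨h4, ?_, ?_⟩
  · nlinarith
  · have h6 : Real.log (g : ℝ) ^ 23 ≤ 1 / (4 * (24 ^ 5) ^ 2) * g := by
      have := (Real.norm_of_nonneg (by positivity : (0 : ℝ) ≤ Real.log (g : ℝ) ^ 23)).symm.le.trans h3
      simpa using this
    calc 4 * (24 ^ 5) ^ 2 * Real.log (g : ℝ) ^ 23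
        ≤ 4 * (24 ^ 5) ^ 2 * (1 / (4 * (24 ^ 5) ^ 2) * g) :=
          mul_le_mul_of_nonneg_left h6 (by positivity)
      _ = g := by ring

end NumR1Aux

theorem num_R1 : ∃ g₁ : ℕ, ∀ (g m k d o n s : ℕ) (N : ℝ), g₁ ≤ g → k * m ≤ g →
    DataR g m k d o n s N → (m : ℝ) * Real.log g ^ 5 ≤ g →
    N ≤ ((k * m : ℕ) : ℝ) / (g * Real.log g) := by
  obtain ⟨Y₀, hY₀⟩ := exists_prime_not_dvd
  obtain ⟨g₀, hg₀⟩ := NumR1Aux.ev Y₀
  refine ⟨max g₀ 16, ?_⟩
  intro g m k d o n s N hg hkm D hB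
  have hga : g₀ ≤ g := (le_max_left _ _).trans hg
  have hgb : 16 ≤ g := (le_max_right _ _).trans hg
  obtain ⟨hL1, hL2, hL3⟩ := hg₀ _ hga
  set L := Real.log g with hL
  have hg16 : (16 : ℝ) ≤ g := by exact_mod_cast hgb
  have hg0 : (0 : ℝ) < g := by linarith
  have hLpos : 0 < L := by linarith
  have hk1 : 1 ≤ k := D.hk
  have hm1 : 1 ≤ m := by
    rw [D.hm]
    exact Nat.one_le_iff_ne_zero.2 (Nat.mul_ne_zero (by omega) (by have := D.hd; omega))
  have hm1' : (1 : ℝ) ≤ m := by exact_mod_cast hm1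
  have hm0 : (0 : ℝ) < m := by linarith
  have hmg : m ≤ g := (Nat.le_mul_of_pos_left m (by omega)).trans hkm
  have hmg' : (m : ℝ) ≤ g := by exact_mod_cast hmg
  have hk1' : (1 : ℝ) ≤ k := by exact_mod_cast hk1
  have hgL : 3 * L ≤ g := by
    have h1 : L ≤ L ^ 23 := le_self_pow₀ (by linarith) (by norm_num)
    nlinarith
  -- the size of the prime
  set Y := √((g : ℝ) / (m * L)) with hY
  have hYsq : Y ^ 2 = (g : ℝ) / (m * L) := Real.sq_sqrt (by positivity)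
  have hYL : L ^ 2 ≤ Y := by
    rw [hY]
    apply Real.le_sqrt_of_sq_le
    rw [le_div_iff₀ (by positivity)]
    have e2 : (L ^ 2) ^ 2 * ((m : ℝ) * L) = (m : ℝ) * L ^ 5 := by ring
    rw [e2]
    exact hB
  have hYpos : 0 < Y := lt_of_lt_of_le (by positivity) hYL
  have hY100 : 10000 ≤ Y := by nlinarith
  have hYg : Y ^ 2 ≤ g := by
    rw [hYsq, div_le_iff₀ (by positivity)]
    have : (1 : ℝ) ≤ m * L := by nlinarith
    nlinarith
  have hlo : Real.log o ≤ Y / 4 := by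
    have ho0 : (0 : ℝ) < o := by exact_mod_cast D.ho
    have h1 : Real.log o ≤ Real.log (2 * g) :=
      Real.log_le_log ho0 (by exact_mod_cast D.hog)
    have h2 : Real.log (2 * g) = Real.log 2 + L := by
      rw [Real.log_mul (by norm_num) hg0.ne']
    have h3 : Real.log 2 ≤ L := Real.log_le_log (by norm_num) (by linarith)
    nlinarith
  obtain ⟨q, hq1, hq2, hq3, hq4, hq5⟩ := hY₀ Y (hL2.trans hYL) o D.ho hlo
  have hN := D.hB q hq1 hq2 hq5
  have hq0 : (2 : ℝ) ≤ q := by exact_mod_cast hq1.two_le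
  -- the exponential
  have hexp : Real.exp (-(2 * g / (m * (q : ℝ) ^ 2))) ≤ 1 / (g : ℝ) ^ 2 := by
    have h1 : 2 * L ≤ 2 * g / (m * (q : ℝ) ^ 2) := by
      rw [le_div_iff₀ (by positivity)]
      have h2 : (q : ℝ) ^ 2 ≤ Y ^ 2 := pow_le_pow_left₀ (by linarith) hq4 2
      rw [hYsq, le_div_iff₀ (by positivity)] at h2
      nlinarith
    have h3 : Real.exp (-(2 * L)) = 1 / (g : ℝ) ^ 2 := by
      rw [Real.exp_neg, hL, mul_comm, Real.exp_mul, Real.exp_log hg0, one_div]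
      norm_num
    rw [← h3]
    exact Real.exp_le_exp.2 (by linarith)
  have hbase : (1 + ((q : ℝ) - 1) * Real.exp (-(2 * g / (m * (q : ℝ) ^ 2)))) ^ m ≤ 3 := by
    have h1 : (1 + ((q : ℝ) - 1) * Real.exp (-(2 * g / (m * (q : ℝ) ^ 2)))) ≤
        Real.exp (1 / m) := by
      refine le_trans ?_ (Real.add_one_le_exp _)
      have h2 : ((q : ℝ) - 1) * Real.exp (-(2 * g / (m * (q : ℝ) ^ 2))) ≤
          Y * (1 / (g : ℝ) ^ 2) :=
        mul_le_mul (by linarith) hexp (Real.exp_pos _).le hYpos.le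
      have h3 : Y * (1 / (g : ℝ) ^ 2) ≤ 1 / m := by
        rw [mul_one_div, div_le_div_iff₀ (by positivity) hm0, one_mul]
        have h4 : Y ≤ g / 4 := by
          have h5 : Y ^ 2 ≤ (g / 4) ^ 2 := by nlinarith
          exact le_of_sq_le_sq h5 (by positivity)
        nlinarith
      linarith
    have h6 : (1 + ((q : ℝ) - 1) * Real.exp (-(2 * g / (m * (q : ℝ) ^ 2)))) ^ m ≤
        (Real.exp (1 / m)) ^ m := by
      refine pow_le_pow_left₀ ?_ h1 m
      have := Real.exp_pos (-(2 * g / (m * (q : ℝ) ^ 2)))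
      nlinarith
    refine h6.trans ?_
    rw [← Real.exp_nat_mul, mul_one_div_cancel hm0.ne']
    have := Real.exp_one_lt_d9
    linarith
  -- the final comparison
  set z := Y ^ (4 / 5 : ℝ) with hz
  have hz0 : 0 < z := Real.rpow_pos_of_pos hYpos _
  have hz4 : 4 ≤ z := by
    have h1 : (10000 : ℝ) ^ (4 / 5 : ℝ) ≤ z :=
      Real.rpow_le_rpow (by norm_num) hY100 (by norm_num)
    have h2 : (4 : ℝ) ≤ (10000 : ℝ) ^ (4 / 5 : ℝ) := by
      have h3 : (4 : ℝ) = ((4 : ℝ) ^ (5 : ℝ)) ^ (1 / 5 : ℝ) := by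
        rw [← Real.rpow_mul (by norm_num)]; norm_num
      have h4 : (10000 : ℝ) ^ (4 / 5 : ℝ) = ((10000 : ℝ) ^ (4 : ℝ)) ^ (1 / 5 : ℝ) := by
        rw [← Real.rpow_mul (by norm_num)]; norm_num
      rw [h4, h3]
      apply Real.rpow_le_rpow (by positivity) _ (by norm_num)
      norm_num
    linarith
  have hq1z : z / 2 ≤ (q : ℝ) - 1 := by linarith
  have hq11 : (2 : ℝ) ≤ (q : ℝ) - 1 := by linarith
  have hkm0 : (m : ℝ) ≤ ((k * m : ℕ) : ℝ) := by push_cast; nlinarith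
  by_cases hcase : 24 ^ 5 * L ^ 11 * m ≤ g
  · -- the sizes
    have hY25 : 24 * L ^ 2 ≤ Y ^ (2 / 5 : ℝ) := by
      have h1 : (24 * L ^ 2) ^ 5 ≤ Y ^ 2 := by
        rw [hYsq, le_div_iff₀ (by positivity)]
        have e3 : (24 * L ^ 2) ^ 5 * ((m : ℝ) * L) = 24 ^ 5 * L ^ 11 * m := by ring
        rw [e3]
        exact hcase
      have h2 : Y ^ (2 / 5 : ℝ) = (Y ^ 2) ^ (1 / 5 : ℝ) := by
        rw [← Real.rpow_natCast Y 2, ← Real.rpow_mul hYpos.le]; norm_num
      have h3 : 24 * L ^ 2 = ((24 * L ^ 2) ^ 5) ^ (1 / 5 : ℝ) := by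
        rw [← Real.rpow_natCast (24 * L ^ 2) 5, ← Real.rpow_mul (by positivity)]; norm_num
      rw [h2, h3]
      exact Real.rpow_le_rpow (by positivity) h1 (by norm_num)
    have hz3 : z ^ 3 = Y ^ (2 / 5 : ℝ) * Y ^ 2 := by
      rw [hz, ← Real.rpow_natCast (Y ^ (4 / 5 : ℝ)) 3, ← Real.rpow_mul hYpos.le,
        ← Real.rpow_natCast Y 2, ← Real.rpow_add hYpos]
      norm_num
    have hpow : (z / 2) ^ 3 ≤ ((q : ℝ) - 1) ^ d :=
      (pow_le_pow_left₀ (by positivity) hq1z 3).trans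
        (pow_le_pow_right₀ (by linarith) D.hd)
    have hz8 : 0 < (z / 2) ^ 3 := by positivity
    have hN1 : N ≤ 3 / (z / 2) ^ 3 := by
      refine hN.trans ?_
      exact div_le_div₀ (by norm_num) hbase hz8 hpow
    refine hN1.trans ?_
    have hgm : (m : ℝ) / (g * L) = 1 / (Y ^ 2 * L ^ 2) := by
      rw [hYsq]
      field_simp
    have h9 : (m : ℝ) / (g * L) ≤ ((k * m : ℕ) : ℝ) / (g * L) :=
      div_le_div_of_nonneg_right hkm0 (by positivity)
    refine le_trans ?_ h9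
    rw [hgm, div_le_div_iff₀ hz8 (by positivity), one_mul, div_pow, hz3]
    have h0 : 0 < Y ^ 2 := by positivity
    nlinarith
  · rw [not_le] at hcase
    set K : ℝ := 24 ^ 5 * L ^ 11 with hK
    have hK0 : 0 < K := by positivity
    have hkK : (k : ℝ) ≤ K := by
      have h1 : (k : ℝ) * m ≤ g := by exact_mod_cast hkm
      have h2 : (k : ℝ) * m ≤ K * m := by linarith
      exact le_of_mul_le_mul_right h2 hm0
    have hd : 4 * L ≤ d := by
      have hmk : (m : ℝ) = k * d := by exact_mod_cast D.hm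
      have h1 : (g : ℝ) ≤ K ^ 2 * d := by
        have h2 : K * m ≤ K * (K * d) := by
          apply mul_le_mul_of_nonneg_left _ hK0.le
          rw [hmk]
          exact mul_le_mul_of_nonneg_right hkK (by positivity)
        nlinarith
      have h3 : K ^ 2 * (4 * L) ≤ g := by
        have e3 : K ^ 2 * (4 * L) = 4 * (24 ^ 5) ^ 2 * L ^ 23 := by rw [hK]; ring
        rw [e3]
        exact hL3
      have h4 : K ^ 2 * (4 * L) ≤ K ^ 2 * d := h3.trans h1
      exact le_of_mul_le_mul_left h4 (by positivity)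
    have hpow : (g : ℝ) ^ 2 ≤ ((q : ℝ) - 1) ^ d := by
      have h1 : (2 : ℝ) ^ d ≤ ((q : ℝ) - 1) ^ d := pow_le_pow_left₀ (by norm_num) hq11 d
      refine le_trans ?_ h1
      have h2 : (2 : ℝ) ^ d = Real.exp (d * Real.log 2) := by
        rw [Real.exp_nat_mul, Real.exp_log (by norm_num)]
      have h3 : (g : ℝ) ^ 2 = Real.exp (2 * L) := by
        rw [hL, mul_comm, Real.exp_mul, Real.exp_log hg0]; norm_num
      rw [h2, h3]
      apply Real.exp_le_exp.2
      have h4 := Real.log_two_gt_d9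
      nlinarith
    have hN1 : N ≤ 3 / (g : ℝ) ^ 2 := by
      refine hN.trans ?_
      exact div_le_div₀ (by norm_num) hbase (by positivity) hpow
    refine hN1.trans ?_
    rw [div_le_div_iff₀ (by positivity) (by positivity)]
    have h1 : (1 : ℝ) ≤ ((k * m : ℕ) : ℝ) := by linarith
    have h2 : 3 * (g * L) ≤ (g : ℝ) ^ 2 := by nlinarith
    have h3 : (g : ℝ) ^ 2 ≤ ((k * m : ℕ) : ℝ) * g ^ 2 := by nlinarith [sq_nonneg (g : ℝ)]
    linarith

end Pool.Agent.Lib.MP_938ce2_ag_u4
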