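import Mathlib
import Pool.Agent.Lib.MP_938ce2_ag_u4.NumR

/-!
Row NumR2: types with `h = m`, `d ≥ 3` and `m > g / (log g) ^ 5`.

`L = log g`. From `k * m ≤ g < m * L ^ 5`: `k < L ^ 5`. If `s ≤ g ^ (1/16)`: `n ≤ k s`, so `hC1` gives
`N ≤ (9/2) * k ^ 2 * g ^ (1/8) / g ^ (1/4) = (9/2) * k ^ 2 * g ^ (-1/8)`. If `s > g ^ (1/16)`: `hC2` with
`t = g ^ (-1/3)` gives `N * s ^ 2 ≤ 6 * n ^ 2 * g ^ (-1/3) + n / 4`, divide by `s ^ 2` and use
`n ≤ k s`: `N ≤ 6 * k ^ 2 * g ^ (-1/3) + k / (4 * s)`. In both cases `N ≤ 7 * k ^ 2 * g ^ (-1/16)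
≤ 7 * L ^ 10 * g ^ (-1/16) ≤ 1 / L ^ 6` for large `g`, and `1 / L ^ 6 ≤ k * m / (g * L)` because
`m / g > 1 / L ^ 5`, `1 ≤ k`. (Model for the asymptotics: `NumCAux.exists_large` in
`MP_938ce2_ag_u2/NumC.lean`.)
-/

set_option autoImplicit false
set_option linter.unusedSectionVars false

namespace Pool.Agent.Lib.MP_938ce2_ag_u4

open Finset Real

namespace NumR2Aux

theorem large : ∃ g₁ : ℕ, 3 ≤ g₁ ∧ ∀ g : ℕ, g₁ ≤ g →
    7 * Real.log g ^ 16 ≤ (g : ℝ) ^ (1 / 16 : ℝ) := by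
  have h1 := isLittleO_log_rpow_rpow_atTop (16 : ℝ) (show (0 : ℝ) < 1 / 16 by norm_num)
  have h2 := (h1.bound (show (0 : ℝ) < 1 / 7 by norm_num))
  have h3 := tendsto_natCast_atTop_atTop (R := ℝ) |>.eventually h2
  obtain ⟨g₁, hg₁⟩ := Filter.eventually_atTop.mp h3
  refine ⟨max g₁ 3, le_max_right _ _, fun g hg => ?_⟩
  have h4 := hg₁ g ((le_max_left _ _).trans hg)
  have hg3 : 3 ≤ g := (le_max_right _ _).trans hg
  have hg1 : (1 : ℝ) ≤ g := by exact_mod_cast (by omega : 1 ≤ g)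
  have hL : 0 ≤ Real.log g := Real.log_nonneg hg1
  have e1 : Real.log (g : ℝ) ^ (16 : ℝ) = Real.log g ^ 16 := by
    rw [← Real.rpow_natCast]
    norm_num
  rw [e1, Real.norm_of_nonneg (by positivity), Real.norm_of_nonneg (by positivity)] at h4
  linarith

end NumR2Aux

theorem num_R2 : ∃ g₁ : ℕ, ∀ (g m k d o n s : ℕ) (N : ℝ), g₁ ≤ g → k * m ≤ g →
    DataR g m k d o n s N → (g : ℝ) < (m : ℝ) * Real.log g ^ 5 →
    N ≤ ((k * m : ℕ) : ℝ) / (g * Real.log g) := by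
  obtain ⟨g₁, h3, hlarge⟩ := NumR2Aux.large
  refine ⟨g₁, fun g m k d o n s N hg hkm D hgm => ?_⟩
  have hg3 : 3 ≤ g := h3.trans hg
  have hl := hlarge g hg
  have hg0 : (0 : ℝ) < g := by exact_mod_cast (by omega : 0 < g)
  have hg1 : (1 : ℝ) ≤ g := by exact_mod_cast (by omega : 1 ≤ g)
  have hL0 : 0 < Real.log g := Real.log_pos (by exact_mod_cast (by omega : 1 < g))
  set L := Real.log g with hLdef
  have hm0 : (0 : ℝ) < m := by
    by_contra h
    have : (m : ℝ) * L ^ 5 ≤ 0 := mul_nonpos_of_nonpos_of_nonneg (not_lt.mp h) (by positivity)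
    linarith
  have hk1 : (1 : ℝ) ≤ k := by exact_mod_cast D.hk
  have hs1 : (1 : ℝ) ≤ s := by exact_mod_cast D.hs
  have hn1 : (1 : ℝ) ≤ n := by exact_mod_cast D.hn
  have hns : (n : ℝ) ≤ k * s := by exact_mod_cast D.hns
  have hkL : (k : ℝ) ≤ L ^ 5 := by
    have h1 : (k : ℝ) * m ≤ g := by exact_mod_cast hkm
    have h2 : (k : ℝ) * m ≤ L ^ 5 * m := by nlinarith
    exact le_of_mul_le_mul_right h2 hm0
  set a : ℝ := (g : ℝ) ^ (1 / 16 : ℝ) with ha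
  have ha0 : 0 < a := Real.rpow_pos_of_pos hg0 _
  have ha1 : 1 ≤ a := Real.one_le_rpow hg1 (by norm_num)
  -- main bound
  have hmain : N * a ≤ 7 * (k : ℝ) ^ 2 := by
    rcases le_or_gt (s : ℝ) a with hsa | hsa
    · have h1 := D.hC1
      have e1 : (g : ℝ) ^ (1 / 4 : ℝ) = a ^ 4 := by
        rw [ha, ← Real.rpow_natCast, ← Real.rpow_mul hg0.le]; norm_num
      rw [e1] at h1
      have h2 : (n : ℝ) ≤ k * a := hns.trans (by gcongr)
      have h3 : (9 / 2 : ℝ) * n * n ≤ (9 / 2) * (k * a) * (k * a) := by gcongr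
      have h4 : N * a ^ 4 ≤ (9 / 2) * (k * a) * (k * a) := by
        rw [le_div_iff₀ (by positivity)] at h1
        exact h1.trans h3
      have h5 : N * a * (a ^ 3) ≤ 7 * (k : ℝ) ^ 2 * a ^ 3 := by
        calc N * a * (a ^ 3) = N * a ^ 4 := by ring
          _ ≤ (9 / 2) * (k * a) * (k * a) := h4
          _ = (9 / 2) * (k : ℝ) ^ 2 * a ^ 2 := by ring
          _ ≤ 7 * (k : ℝ) ^ 2 * a ^ 3 := by
              have : a ^ 2 ≤ a ^ 3 := pow_le_pow_right₀ ha1 (by norm_num)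
              have h6 : (0 : ℝ) ≤ (k : ℝ) ^ 2 := by positivity
              nlinarith [mul_nonneg h6 (sub_nonneg.mpr this), mul_nonneg h6 (by positivity : (0 : ℝ) ≤ a ^ 3)]
      exact le_of_mul_le_mul_right h5 (by positivity)
    · set b : ℝ := (g : ℝ) ^ (1 / 6 : ℝ) with hb
      have hb0 : 0 < b := Real.rpow_pos_of_pos hg0 _
      have e1 : (g : ℝ) ^ (1 / 3 : ℝ) = b ^ 2 := by
        rw [hb, ← Real.rpow_natCast, ← Real.rpow_mul hg0.le]; norm_num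
      have e2 : √(g : ℝ) = b ^ 3 := by
        rw [Real.sqrt_eq_rpow, hb, ← Real.rpow_natCast, ← Real.rpow_mul hg0.le]; norm_num
      have h1 := D.hC2 (1 / b ^ 2) (by positivity)
      have e3 : √(1 / b ^ 2) = 1 / b := by
        rw [show 1 / b ^ 2 = (1 / b) ^ 2 by ring]
        exact Real.sqrt_sq (by positivity)
      rw [e2, e3, show b ^ 3 * (1 / b) = b ^ 2 by field_simp] at h1
      have hab : a ≤ b ^ 2 := by
        rw [← e1, ha]
        exact Real.rpow_le_rpow_of_exponent_le hg1 (by norm_num)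
      have h2 : N * (s : ℝ) ^ 2 ≤ 6 * (k * s) ^ 2 / b ^ 2 + k * s / 4 := by
        calc N * (s : ℝ) ^ 2 ≤ n * n * (1 / b ^ 2) + n / 4 + 5 * n * n / b ^ 2 := h1
          _ = 6 * (n : ℝ) ^ 2 / b ^ 2 + n / 4 := by ring
          _ ≤ 6 * (k * s) ^ 2 / b ^ 2 + k * s / 4 := by gcongr
      have h3 : N * (s : ℝ) ^ 2 ≤ 6 * (k * s) ^ 2 / a + k * s / 4 := by
        refine h2.trans ?_
        gcongr
      have h4 : N * a * (s : ℝ) ^ 2 ≤ 6 * (k * s) ^ 2 + k * s * a / 4 := by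
        calc N * a * (s : ℝ) ^ 2 = (N * (s : ℝ) ^ 2) * a := by ring
          _ ≤ (6 * (k * s) ^ 2 / a + k * s / 4) * a := by gcongr
          _ = 6 * (k * s) ^ 2 + k * s * a / 4 := by field_simp
      have h5 : (k : ℝ) * s * a / 4 ≤ (k : ℝ) ^ 2 * (s : ℝ) ^ 2 := by
        have h6 : (k : ℝ) * s * a ≤ k * s * s := by gcongr
        have h7 : (k : ℝ) * s * s ≤ k * (k * s * s) := by
          have : 0 ≤ (k : ℝ) * s * s := by positivity
          nlinarith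
        nlinarith [mul_nonneg (mul_nonneg (by linarith : (0 : ℝ) ≤ k) (by linarith : (0 : ℝ) ≤ s))
          (by linarith : (0 : ℝ) ≤ s)]
      have h8 : N * a * (s : ℝ) ^ 2 ≤ 7 * (k : ℝ) ^ 2 * (s : ℝ) ^ 2 := by nlinarith
      exact le_of_mul_le_mul_right h8 (by positivity)
  -- conclusion
  have h1 : N * a ≤ 7 * L ^ 10 := by
    refine hmain.trans ?_
    have : (k : ℝ) ^ 2 ≤ (L ^ 5) ^ 2 := by gcongr
    nlinarith
  have h2 : N * L ^ 6 ≤ 1 := by
    by_contra h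
    have h3 : 1 < N * L ^ 6 := not_le.mp h
    have h4 : a < N * L ^ 6 * a := by nlinarith
    have h5 : N * L ^ 6 * a ≤ 7 * L ^ 16 := by
      calc N * L ^ 6 * a = (N * a) * L ^ 6 := by ring
        _ ≤ 7 * L ^ 10 * L ^ 6 := by gcongr
        _ = 7 * L ^ 16 := by ring
    linarith
  have h3 : N ≤ 1 / L ^ 6 := by
    rw [le_div_iff₀ (by positivity)]
    exact h2
  refine h3.trans ?_
  rw [div_le_div_iff₀ (by positivity) (by positivity)]
  push_cast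
  have h4 : (g : ℝ) * L ≤ (m * L ^ 5) * L := by gcongr
  have h5 : (m : ℝ) * L ^ 6 ≤ k * m * L ^ 6 := by
    have : 0 ≤ (m : ℝ) * L ^ 6 := by positivity
    nlinarith
  calc 1 * ((g : ℝ) * L) ≤ (m * L ^ 5) * L := by linarith
    _ = m * L ^ 6 := by ring
    _ ≤ k * m * L ^ 6 := h5

end Pool.Agent.Lib.MP_938ce2_ag_u4
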