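import Mathlib
import Pool.Agent.Lib.MP_938ce2_ag_u4.NumR1
import Pool.Agent.Lib.MP_938ce2_ag_u4.NumR2

/-!
Row NumR3: the sum over the types with `h = m`, `d ≥ 3`: by `num_R1`, `num_R2` the sum is at most
`(∑ k m) / (g log g) ≤ 1 / log g`.
-/

set_option autoImplicit false
set_option linter.unusedSectionVars false

namespace Pool.Agent.Lib.MP_938ce2_ag_u4

open Finset Real

theorem numericR : ∀ ε : ℝ, 0 < ε → ∃ g₀ : ℕ, ∀ (ι : Type) [Fintype ι] (g : ℕ)
    (m k d o n s : ι → ℕ) (N : ι → ℝ), g₀ ≤ g → ∑ i, k i * m i ≤ g →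
    (∀ i, DataR g (m i) (k i) (d i) (o i) (n i) (s i) (N i)) → ∑ i, N i ≤ ε := by
  intro ε hε
  obtain ⟨g₁, h1⟩ := num_R1
  obtain ⟨g₂, h2⟩ := num_R2
  refine ⟨max (max g₁ g₂) (⌈Real.exp (1 / ε)⌉₊ + 2), ?_⟩
  intro ι _ g m k d o n s N hg hsum hd
  have hg1 : g₁ ≤ g := (le_max_left _ _).trans ((le_max_left _ _).trans hg)
  have hg2 : g₂ ≤ g := (le_max_right _ _).trans ((le_max_left _ _).trans hg)
  have hg3 : ⌈Real.exp (1 / ε)⌉₊ + 2 ≤ g := (le_max_right _ _).trans hg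
  have hgpos : (0 : ℝ) < g := by exact_mod_cast (by omega : 0 < g)
  have hexp : Real.exp (1 / ε) ≤ g :=
    (Nat.le_ceil _).trans (by exact_mod_cast (by omega : ⌈Real.exp (1 / ε)⌉₊ ≤ g))
  have hlog : 1 / ε ≤ Real.log g := by
    rw [← Real.log_exp (1 / ε)]
    exact Real.log_le_log (Real.exp_pos _) hexp
  have hlogpos : 0 < Real.log g := lt_of_lt_of_le (by positivity) hlog
  have hi : ∀ i, N i ≤ ((k i * m i : ℕ) : ℝ) / (g * Real.log g) := by
    intro i
    have hkm : k i * m i ≤ g :=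
      (Finset.single_le_sum (f := fun i => k i * m i) (fun j _ => Nat.zero_le _)
        (Finset.mem_univ i)).trans hsum
    rcases le_or_gt ((m i : ℝ) * Real.log g ^ 5) g with h | h
    · exact h1 g (m i) (k i) (d i) (o i) (n i) (s i) (N i) hg1 hkm (hd i) h
    · exact h2 g (m i) (k i) (d i) (o i) (n i) (s i) (N i) hg2 hkm (hd i) h
  have hsum' : ((∑ i, k i * m i : ℕ) : ℝ) ≤ g := by exact_mod_cast hsum
  calc ∑ i, N i ≤ ∑ i, ((k i * m i : ℕ) : ℝ) / (g * Real.log g) :=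
        Finset.sum_le_sum fun i _ => hi i
    _ = ((∑ i, k i * m i : ℕ) : ℝ) / (g * Real.log g) := by
        rw [← Finset.sum_div]
        push_cast
        rfl
    _ ≤ g / (g * Real.log g) := by
        apply div_le_div_of_nonneg_right hsum' (by positivity)
    _ = 1 / Real.log g := by
        field_simp
    _ ≤ ε := by
        rw [div_le_iff₀ hlogpos]
        rw [div_le_iff₀ hε] at hlog
        linarith

end Pool.Agent.Lib.MP_938ce2_ag_u4
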