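import Mathlib

/-!
Row Prime5: Bertrand (`Nat.exists_prime_lt_and_le_two_mul`) for `n, 2n, 4n, 8n, 16n` gives five distinct
primes larger than `n` and at most `32 n`; if all divide `o` then their product does
(`Nat.Coprime.mul_dvd_of_dvd_of_dvd`) and `n ^ 5 < o`.
-/

set_option autoImplicit false
set_option linter.unusedSectionVars false

namespace Pool.Agent.Lib.MP_938ce2_ag_u4

theorem exists_prime_five (n o : ℕ) (hn : 3 ≤ n) (ho : 1 ≤ o) (h : o < n ^ 5) :
    ∃ q : ℕ, q.Prime ∧ q ≠ 2 ∧ n ≤ q ∧ q ≤ 32 * n ∧ ¬ q ∣ o := by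
  obtain ⟨p1, q1, l1, u1⟩ := Nat.exists_prime_lt_and_le_two_mul n (by omega)
  obtain ⟨p2, q2, l2, u2⟩ := Nat.exists_prime_lt_and_le_two_mul (2 * n) (by omega)
  obtain ⟨p3, q3, l3, u3⟩ := Nat.exists_prime_lt_and_le_two_mul (4 * n) (by omega)
  obtain ⟨p4, q4, l4, u4⟩ := Nat.exists_prime_lt_and_le_two_mul (8 * n) (by omega)
  obtain ⟨p5, q5, l5, u5⟩ := Nat.exists_prime_lt_and_le_two_mul (16 * n) (by omega)
  by_contra hc
  push Not at hc
  have d1 := hc p1 q1 (by omega) (by omega) (by omega)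
  have d2 := hc p2 q2 (by omega) (by omega) (by omega)
  have d3 := hc p3 q3 (by omega) (by omega) (by omega)
  have d4 := hc p4 q4 (by omega) (by omega) (by omega)
  have d5 := hc p5 q5 (by omega) (by omega) (by omega)
  have c12 : Nat.Coprime p1 p2 := (Nat.coprime_primes q1 q2).2 (by omega)
  have c13 : Nat.Coprime p1 p3 := (Nat.coprime_primes q1 q3).2 (by omega)
  have c14 : Nat.Coprime p1 p4 := (Nat.coprime_primes q1 q4).2 (by omega)
  have c15 : Nat.Coprime p1 p5 := (Nat.coprime_primes q1 q5).2 (by omega)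
  have c23 : Nat.Coprime p2 p3 := (Nat.coprime_primes q2 q3).2 (by omega)
  have c24 : Nat.Coprime p2 p4 := (Nat.coprime_primes q2 q4).2 (by omega)
  have c25 : Nat.Coprime p2 p5 := (Nat.coprime_primes q2 q5).2 (by omega)
  have c34 : Nat.Coprime p3 p4 := (Nat.coprime_primes q3 q4).2 (by omega)
  have c35 : Nat.Coprime p3 p5 := (Nat.coprime_primes q3 q5).2 (by omega)
  have c45 : Nat.Coprime p4 p5 := (Nat.coprime_primes q4 q5).2 (by omega)
  have e2 : p1 * p2 ∣ o := c12.mul_dvd_of_dvd_of_dvd d1 d2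
  have e3 : p1 * p2 * p3 ∣ o := (Nat.Coprime.mul_left c13 c23).mul_dvd_of_dvd_of_dvd e2 d3
  have e4 : p1 * p2 * p3 * p4 ∣ o :=
    (Nat.Coprime.mul_left (Nat.Coprime.mul_left c14 c24) c34).mul_dvd_of_dvd_of_dvd e3 d4
  have e5 : p1 * p2 * p3 * p4 * p5 ∣ o :=
    (Nat.Coprime.mul_left (Nat.Coprime.mul_left (Nat.Coprime.mul_left c15 c25) c35)
      c45).mul_dvd_of_dvd_of_dvd e4 d5
  have e6 := Nat.le_of_dvd ho e5
  have e7 : n * n * n * n * n ≤ p1 * p2 * p3 * p4 * p5 := by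
    refine Nat.mul_le_mul (Nat.mul_le_mul (Nat.mul_le_mul (Nat.mul_le_mul ?_ ?_) ?_) ?_) ?_ <;>
      omega
  have e8 : n * n * n * n * n = n ^ 5 := by ring
  omega

end Pool.Agent.Lib.MP_938ce2_ag_u4
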