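import Mathlib
import Pool.Agent.Lib.MP_938ce2_ag_u4.Prime5

/-!
Row Sharp: the sharp bound for small exponents.
-/

set_option autoImplicit false
set_option linter.unusedSectionVars false

namespace Pool.Agent.Lib.MP_938ce2_ag_u4

namespace SharpAux

open Real Filter Asymptotics

/-- growth of the logarithm -/
theorem log_growth (A : ℝ) (hA : 0 < A) : ∃ s₀ : ℝ, 1 ≤ s₀ ∧ ∀ s : ℝ, s₀ ≤ s →
    A * (1 + Real.log (2 * s)) ^ 5 < s := by
  have h := (isLittleO_pow_log_id_atTop (n := 5)).def (c := 1 / (A * 32 * 4)) (by positivity)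
  rw [eventually_atTop] at h
  obtain ⟨x₀, hx₀⟩ := h
  refine ⟨max (max 1 x₀) (Real.exp 1), le_trans (le_max_left 1 x₀) (le_max_left _ _), ?_⟩
  intro s hs
  have h1 : (1 : ℝ) ≤ s := le_trans (le_trans (le_max_left 1 x₀) (le_max_left _ _)) hs
  have h2 : x₀ ≤ s := le_trans (le_trans (le_max_right 1 x₀) (le_max_left _ _)) hs
  have h3 : Real.exp 1 ≤ s := le_trans (le_max_right _ _) hs
  have hl : 1 ≤ Real.log (2 * s) := by
    rw [Real.le_log_iff_exp_le (by positivity)]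
    linarith
  have h4 := hx₀ (2 * s) (by linarith)
  rw [Real.norm_of_nonneg (by positivity), id, Real.norm_of_nonneg (by positivity)] at h4
  have h5 : (1 + Real.log (2 * s)) ^ 5 ≤ (2 * Real.log (2 * s)) ^ 5 := by
    apply pow_le_pow_left₀ (by linarith)
    linarith
  have h6 : (2 * Real.log (2 * s)) ^ 5 = 32 * Real.log (2 * s) ^ 5 := by ring
  calc A * (1 + Real.log (2 * s)) ^ 5 ≤ A * (32 * Real.log (2 * s) ^ 5) := by
        rw [← h6]; exact mul_le_mul_of_nonneg_left h5 hA.le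
    _ ≤ A * (32 * (1 / (A * 32 * 4) * (2 * s))) := by
        apply mul_le_mul_of_nonneg_left _ hA.le
        apply mul_le_mul_of_nonneg_left h4 (by norm_num)
    _ = s / 2 := by field_simp; norm_num
    _ < s := by linarith

end SharpAux

open SharpAux in
theorem sharp : ∃ C : ℝ, 0 < C ∧ ∃ g₀ : ℕ, ∀ (g m e o : ℕ) (N : ℝ), g₀ ≤ g → 1 ≤ m →
    m * m ≤ 4 * g → 1 ≤ o → o ≤ 4 * g → 1 ≤ e → e ≤ 2 →
    (∀ q : ℕ, q.Prime → q ≠ 2 → ¬ q ∣ o → m * q ^ 2 ≤ g →
      N ≤ (1 + 3 * Real.exp (-(g / (m * (q : ℝ) ^ 2)))) ^ m / ((q : ℝ) - 1) ^ e) →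
    N ≤ C * √(m * (1 + Real.log m) / g) ^ e := by
  obtain ⟨s₀, hs₀1, hs₀⟩ := log_growth (512 * 64 ^ 10) (by norm_num)
  refine ⟨8 * 128 ^ 2, by norm_num, ⌈s₀ ^ 2⌉₊ + 1, ?_⟩
  intro g m e o N hg hm hmm ho1 ho2 he1 he2 H
  have hgs : s₀ ^ 2 ≤ (g : ℝ) := by
    have h1 := Nat.le_ceil (s₀ ^ 2)
    have h2 : ((⌈s₀ ^ 2⌉₊ : ℕ) : ℝ) ≤ (g : ℝ) := by exact_mod_cast (by omega)
    linarith
  have hg1 : (1 : ℝ) ≤ (g : ℝ) := by nlinarith
  have hg0 : (0 : ℝ) < (g : ℝ) := by linarith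
  set s : ℝ := √(g : ℝ) with hsdef
  have hss : s ^ 2 = (g : ℝ) := Real.sq_sqrt hg0.le
  have hs1 : s₀ ≤ s := by
    rw [hsdef]
    apply Real.le_sqrt_of_sq_le hgs
  have hspos : 1 ≤ s := le_trans hs₀1 hs1
  have hkey := hs₀ s hs1
  have hm0 : (1 : ℝ) ≤ (m : ℝ) := by exact_mod_cast hm
  have hmpos : (0 : ℝ) < (m : ℝ) := by linarith
  have hm2 : (m : ℝ) ≤ 2 * s := by
    have h1 : (m : ℝ) * m ≤ 4 * g := by exact_mod_cast hmm
    nlinarith
  set L : ℝ := 1 + Real.log m with hL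
  have hlogm : 0 ≤ Real.log m := Real.log_nonneg hm0
  have hL1 : 1 ≤ L := by rw [hL]; linarith
  have hLle : L ≤ 1 + Real.log (2 * s) := by
    rw [hL]
    have := Real.log_le_log hmpos hm2
    linarith
  set T : ℝ := 1 + Real.log (2 * s) with hT
  have hT1 : 1 ≤ T := le_trans hL1 hLle
  have hmL : 0 < (m : ℝ) * L := by positivity
  set W : ℝ := (g : ℝ) / (m * L) with hW
  have hWpos : 0 < W := by positivity
  have hWge : s / (2 * T) ≤ W := by
    rw [hW, div_le_div_iff₀ (by positivity) hmL]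
    have h1 : (m : ℝ) * L ≤ (2 * s) * T :=
      mul_le_mul hm2 hLle (by linarith) (by linarith)
    calc s * (m * L) ≤ s * ((2 * s) * T) := mul_le_mul_of_nonneg_left h1 (by linarith)
      _ = s ^ 2 * (2 * T) := by ring
      _ = g * (2 * T) := by rw [hss]
  -- the fifth power
  have hWT : 512 * 64 ^ 10 * T ^ 4 / 2 < W := by
    have h1 : 512 * 64 ^ 10 * T ^ 5 < s := hkey
    have h2 : 512 * 64 ^ 10 * T ^ 4 / 2 < s / (2 * T) := by
      rw [lt_div_iff₀ (by positivity)]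
      calc 512 * 64 ^ 10 * T ^ 4 / 2 * (2 * T) = 512 * 64 ^ 10 * T ^ 5 := by ring
        _ < s := h1
    linarith
  have hTp : (1 : ℝ) ≤ T ^ 4 := one_le_pow₀ hT1
  have hW0 : (3072 : ℝ) ^ 2 ≤ W := by nlinarith
  set Z : ℝ := √W with hZ
  have hZ2 : Z ^ 2 = W := Real.sq_sqrt hWpos.le
  have hZpos : 0 < Z := Real.sqrt_pos.mpr hWpos
  have hZ96 : (3072 : ℝ) ≤ Z := by
    rw [hZ]; exact Real.le_sqrt_of_sq_le hW0
  set n : ℕ := ⌊Z / 32⌋₊ with hn
  have hn1 : (n : ℝ) ≤ Z / 32 := Nat.floor_le (by positivity)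
  have hn2 : Z / 32 < n + 1 := Nat.lt_floor_add_one _
  have hn3 : 3 ≤ n := by
    have : (95 : ℝ) < n := by linarith
    have : (95 : ℕ) < n := by exact_mod_cast this
    omega
  have hn64 : Z / 64 ≤ n := by linarith
  -- n ^ 5 > 4 g
  have hn5 : o < n ^ 5 := by
    have h1 : (4 * (g : ℝ)) < (Z / 64) ^ 5 := by
      have hWW : (4 * 64 ^ 5 * (g : ℝ)) ^ 2 < W ^ 5 := by
        have h2 : (s / (2 * T)) ^ 5 ≤ W ^ 5 := pow_le_pow_left₀ (by positivity) hWge 5
        have h3 : (4 * 64 ^ 5 * (g : ℝ)) ^ 2 < (s / (2 * T)) ^ 5 := by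
          rw [← hss, div_pow, lt_div_iff₀ (by positivity)]
          calc (4 * 64 ^ 5 * s ^ 2) ^ 2 * (2 * T) ^ 5 = (512 * 64 ^ 10 * T ^ 5) * s ^ 4 := by ring
            _ < s * s ^ 4 := by
                apply mul_lt_mul_of_pos_right hkey (by positivity)
            _ = s ^ 5 := by ring
        linarith
      have h4 : (4 * 64 ^ 5 * (g : ℝ)) ^ 2 < (Z ^ 5) ^ 2 := by
        calc (4 * 64 ^ 5 * (g : ℝ)) ^ 2 < W ^ 5 := hWW
          _ = (Z ^ 5) ^ 2 := by rw [← hZ2]; ring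
      have h5 : 4 * 64 ^ 5 * (g : ℝ) < Z ^ 5 := lt_of_pow_lt_pow_left₀ 2 (by positivity) h4
      rw [div_pow, lt_div_iff₀ (by norm_num)]
      linarith
    have h2 : (Z / 64) ^ 5 ≤ (n : ℝ) ^ 5 := pow_le_pow_left₀ (by positivity) hn64 5
    have h3 : (o : ℝ) < (n : ℝ) ^ 5 := by
      have : (o : ℝ) ≤ 4 * g := by exact_mod_cast ho2
      linarith
    exact_mod_cast h3
  obtain ⟨q, hqp, hq2, hnq, hq32, hqo⟩ := exists_prime_five n o hn3 ho1 hn5
  have hqZ : (q : ℝ) ≤ Z := by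
    have h1 : (q : ℝ) ≤ 32 * n := by exact_mod_cast hq32
    linarith
  have hqn : (n : ℝ) ≤ q := by exact_mod_cast hnq
  have hq0 : (3 : ℝ) ≤ q := by
    have : (3 : ℝ) ≤ n := by exact_mod_cast hn3
    linarith
  have hmq : (m : ℝ) * q ^ 2 ≤ g / L := by
    have h1 : (q : ℝ) ^ 2 ≤ W := by rw [← hZ2]; exact pow_le_pow_left₀ (by linarith) hqZ 2
    calc (m : ℝ) * q ^ 2 ≤ m * W := mul_le_mul_of_nonneg_left h1 hmpos.le
      _ = g / L := by rw [hW]; field_simp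
  have hmqg : m * q ^ 2 ≤ g := by
    have h1 : (m : ℝ) * q ^ 2 ≤ g := le_trans hmq (div_le_self hg0.le hL1)
    exact_mod_cast h1
  have hN := H q hqp hq2 hqo hmqg
  have hmqpos : (0 : ℝ) < (m : ℝ) * (q : ℝ) ^ 2 := by positivity
  have hLq : L ≤ g / (m * (q : ℝ) ^ 2) := by
    rw [le_div_iff₀ hmqpos]
    have h1 : L * ((m : ℝ) * q ^ 2) ≤ L * (g / L) :=
      mul_le_mul_of_nonneg_left hmq (by linarith)
    calc L * ((m : ℝ) * q ^ 2) ≤ L * (g / L) := h1
      _ = g := by field_simp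
  have hexp : 3 * Real.exp (-(g / (m * (q : ℝ) ^ 2))) ≤ 2 / m := by
    have h1 : Real.exp (-(g / (m * (q : ℝ) ^ 2))) ≤ Real.exp (-L) :=
      Real.exp_le_exp.mpr (by linarith)
    have h2 : Real.exp (-L) = Real.exp (-1) / m := by
      rw [hL, neg_add, Real.exp_add, Real.exp_neg (Real.log m), Real.exp_log hmpos]
      rfl
    have h3 : 3 * Real.exp (-1) ≤ 2 := by
      have h4 : (2.7 : ℝ) < Real.exp 1 := by
        have := Real.exp_one_gt_d9
        linarith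
      rw [Real.exp_neg, ← div_eq_mul_inv, div_le_iff₀ (Real.exp_pos 1)]
      linarith
    calc 3 * Real.exp (-(g / (m * (q : ℝ) ^ 2))) ≤ 3 * (Real.exp (-1) / m) := by
          rw [← h2]; linarith
      _ = (3 * Real.exp (-1)) / m := by ring
      _ ≤ 2 / m := div_le_div_of_nonneg_right h3 hmpos.le
  have hpow : (1 + 3 * Real.exp (-(g / (m * (q : ℝ) ^ 2)))) ^ m ≤ 8 := by
    have h1 : 1 + 3 * Real.exp (-(g / (m * (q : ℝ) ^ 2))) ≤ Real.exp (2 / m) := by
      have := Real.add_one_le_exp (2 / (m : ℝ))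
      linarith
    calc (1 + 3 * Real.exp (-(g / (m * (q : ℝ) ^ 2)))) ^ m ≤ (Real.exp (2 / m)) ^ m :=
          pow_le_pow_left₀ (by positivity) h1 m
      _ = Real.exp 2 := by
          rw [← Real.exp_nat_mul]
          congr 1
          field_simp
      _ ≤ 8 := by
          have h2 : Real.exp 2 = Real.exp 1 * Real.exp 1 := by
            rw [← Real.exp_add]; norm_num
          have h3 := Real.exp_one_lt_d9
          have h4 := Real.exp_pos 1
          rw [h2]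
          nlinarith
  have hq1 : Z / 128 ≤ (q : ℝ) - 1 := by linarith
  have hq1pos : 0 < (q : ℝ) - 1 := by linarith
  have hpe : (Z / 128) ^ e ≤ ((q : ℝ) - 1) ^ e := pow_le_pow_left₀ (by positivity) hq1 e
  have hZe : 0 < (Z / 128) ^ e := by positivity
  have hsq : √(m * L / g) = 1 / Z := by
    rw [hZ, hW, ← Real.sqrt_one, ← Real.sqrt_div' 1 (by positivity)]
    congr 1
    rw [one_div_div]
  calc N ≤ (1 + 3 * Real.exp (-(g / (m * (q : ℝ) ^ 2)))) ^ m / ((q : ℝ) - 1) ^ e := hN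
    _ ≤ 8 / (Z / 128) ^ e := by
        apply div_le_div₀ (by norm_num) hpow hZe hpe
    _ = 8 * 128 ^ e * (1 / Z) ^ e := by
        rw [div_pow, one_div, inv_pow]
        field_simp
    _ ≤ 8 * 128 ^ 2 * (1 / Z) ^ e := by
        apply mul_le_mul_of_nonneg_right _ (by positivity)
        apply mul_le_mul_of_nonneg_left _ (by norm_num)
        exact pow_le_pow_right₀ (by norm_num) he2
    _ = 8 * 128 ^ 2 * √(m * (1 + Real.log m) / g) ^ e := by rw [← hL, hsq]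

end Pool.Agent.Lib.MP_938ce2_ag_u4
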