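import Mathlib
import Pool.Agent.Lib.MP_938ce2_ag_u3.Main3
import Pool.Agent.Lib.MP_938ce2_ag_u4.Defs4
import Pool.Agent.Lib.MP_938ce2_ag_u4.MinkB
import Pool.Agent.Lib.MP_938ce2_ag_u4.CharA
import Pool.Agent.Lib.MP_938ce2_ag_u4.CharB
import Pool.Agent.Lib.MP_938ce2_ag_u4.NumR3
import Pool.Agent.Lib.MP_938ce2_ag_u4.Sharp
import Pool.Agent.Lib.MP_938ce2_ag_u4.NumII
import Pool.Agent.Lib.MP_938ce2_ag_u4.DataR

/-!
The count for `G`-sets, second form.
-/

set_option autoImplicit false
set_option linter.unusedSectionVars false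

namespace Pool.Agent.Lib.MP_938ce2_ag_u4

open Finset Module MonoidAlgebra
open Pool.Agent.Lib.MP_938ce2_ag_h67 (sg VV ev mkV Orb red kerM)
open Pool.Agent.Lib.MP_938ce2_ag_h60 (CMType)
open Pool.Agent.Lib.MP_938ce2_ag_u2 (Act OddM badC mem_badC dM dE dH)
open Pool.Agent.Lib.MP_938ce2_ag_h60 (Nondeg GeneratedByDivisors generatedByDivisors_of_nondeg)
open Pool.Agent.Lib.MP_938ce2_ag_h85d (finrank_hom_le finite_hom)
open Pool.Agent.Lib.MP_938ce2_ag_u2 (Data numericV numbers bad_le_big bad_le_odd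
  exists_simple_of_deg odd_of_iso index_eq index_two c_free mem_kerM_of_orb card_cm_all)
open Pool.Agent.Lib.MP_938ce2_ag_u3 (Exc dM_pos dE_pos bad_le_one three_of_not_exc bad_le_refined
  reg_sum odd_numbers dM_le_orb ker_count)

section

variable {G X : Type} [Group G] [Fintype G] [MulAction G X] [Fintype X] [DecidableEq X] {c : G}
  {g : ℕ} [MulAction.IsPretransitive G X]

/-- the data of a simple odd module of exponent at least three, not trivial on the stabilizers -/
theorem exists_data4 (hA : Act G X c g) (M : Submodule (MonoidAlgebra ℚ G) (VV ℚ G X))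
    (hs : IsSimpleModule (MonoidAlgebra ℚ G) M) (hodd : OddM c M) (k : ℕ) (hk1 : 1 ≤ k)
    (hk : dH M = k * dE M) (hlt : dH M < dM M) (he : 3 ≤ dE M + dM M - dH M) :
    ∃ n κ s : ℕ, Data g (dM M) k (dE M) (dH M) (kerM M).index n κ s
      (((badC c M).card : ℝ) / 2 ^ g) := by
  have hm : 0 < dM M := dM_pos M hs
  have hd : 0 < dE M := dE_pos M hs
  obtain ⟨n, κ, s, h1, h2, h3, h4, h5, h6, h7, h8, h9⟩ := numbers hA M hs hodd k hk
  refine ⟨n, κ, s, ⟨hk1, hd, hk, hlt, he, ?_, ?_, ?_, h7,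
    h1, h2, h3, h4, h5, h6, h8, h9⟩⟩
  · have hg := hA.pos
    obtain ⟨q, hq, hq1, hq2⟩ := Nat.exists_prime_lt_and_le_two_mul (2 * g) (by omega)
    refine (bad_le_big hA M hodd hm q hq hq1).trans ?_
    apply div_le_div_of_nonneg_right _ (by positivity)
    apply pow_le_pow_left₀ (Nat.cast_nonneg _)
    have : ((q : ℕ) : ℝ) ≤ ((2 * (2 * g) : ℕ) : ℝ) := by exact_mod_cast hq2
    refine this.trans (le_of_eq ?_)
    push_cast
    ring
  · intro q hq hq2 hqo
    exact bad_le_odd hA M hodd hm hlt.le q hq hq2 hqo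
  · exact Nat.one_le_iff_ne_zero.mpr Subgroup.index_ne_zero_of_finite

theorem card_orb_le (hA : Act G X c g) (K : Subgroup G) [K.Normal] :
    Nat.card (Orb K X) ≤ 2 * g := by
  have h1 := Nat.card_le_card_of_surjective _ (Pool.Agent.Lib.MP_938ce2_ag_h67.Orb.mk_surj (Ω := X) K)
  rw [Nat.card_eq_fintype_card (α := X), hA.card] at h1
  exact h1

/-- the sharp bound for small exponents -/
theorem sharp_bad {C : ℝ} {g₀ : ℕ}
    (hC : ∀ (g m e o : ℕ) (N : ℝ), g₀ ≤ g → 1 ≤ m →
      m * m ≤ 4 * g → 1 ≤ o → o ≤ 4 * g → 1 ≤ e → e ≤ 2 →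
      (∀ q : ℕ, q.Prime → q ≠ 2 → ¬ q ∣ o → m * q ^ 2 ≤ g →
        N ≤ (1 + 3 * Real.exp (-(g / (m * (q : ℝ) ^ 2)))) ^ m / ((q : ℝ) - 1) ^ e) →
      N ≤ C * √(m * (1 + Real.log m) / g) ^ e)
    (hg : g₀ ≤ g) (hA : Act G X c g) (M : Submodule (MonoidAlgebra ℚ G) (VV ℚ G X))
    (hs : IsSimpleModule (MonoidAlgebra ℚ G) M) (hodd : OddM c M)
    (hle : dH M ≤ dM M) (he : dE M + dM M - dH M ≤ 2) (hmm : dM M * dM M ≤ 4 * g) :
    ((badC c M).card : ℝ) / 2 ^ g
      ≤ C * √(dM M * (1 + Real.log (dM M)) / g) ^ (dE M + dM M - dH M) := by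
  have hm : 0 < dM M := dM_pos M hs
  have hd : 0 < dE M := dE_pos M hs
  have hidx : (kerM M).index ≤ 4 * g := by
    have h1 := card_orb_le hA (kerM M)
    rcases Nat.lt_or_ge (dH M) (dM M) with h | h
    · have h2 := index_two hA M hm (by omega)
      omega
    · have h2 := index_eq hA M hm (le_antisymm hle h)
      omega
  exact hC g (dM M) (dE M + dM M - dH M) (kerM M).index _ hg hm hmm
    (Nat.one_le_iff_ne_zero.mpr Subgroup.index_ne_zero_of_finite) hidx (by omega) he
    (fun q hq hq2 hqo hmq => bad_le_refined hA M hodd hm hle q hq hq2 hqo hmq)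

end

theorem main_G4 : ∃ C : ℝ, ∀ ε : ℝ, 0 < ε → ∃ B g₀ : ℕ, ∀ (G X : Type) [Group G] [Fintype G]
    [MulAction G X] [Fintype X] [MulAction.IsPretransitive G X] (c : G) (g : ℕ),
    Act G X c g → g₀ ≤ g → ∀ (R : Finset (G → ℚ)) (t : Finset (Subgroup G)),
    (∀ (m : ℕ) (ρ : G →* Matrix (Fin m) (Fin m) ℚ), OddRep G X c ρ →
      (fun σ => (ρ σ).trace) ∈ R) →
    (∀ K, Exc G X c K → Nat.card (Orb K X) ≤ B → K ∈ t) →
    (Nat.card {Φ : Finset X // CMType c Φ ∧ ¬ GeneratedByDivisors G Φ} : ℝ)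
      ≤ (ε + C * ∑ χ ∈ R, √((χ 1 : ℚ) * (1 + Real.log (χ 1 : ℚ)) / g) + B * t.card / g)
        * 2 ^ g := by
  obtain ⟨C, hC0, g₁, hC⟩ := sharp
  refine ⟨C, ?_⟩
  intro ε hε
  obtain ⟨g₂, hnum⟩ := numericV (ε / 6) (by positivity)
  obtain ⟨g₃, hreg⟩ := reg_sum (ε / 6) (by positivity)
  obtain ⟨g₄, hR⟩ := numericR (ε / 6) (by positivity)
  obtain ⟨M₀, hII⟩ := num_II C (ε / 6) hC0 (by positivity)
  obtain ⟨B₁, hB₁⟩ : ∃ B₁ : ℕ, B₁ = 3 ^ (M₀ * M₀) := ⟨_, rfl⟩
  obtain ⟨B, hB⟩ : ∃ B : ℕ, B = B₁ * (⌈C * (M₀ * M₀)⌉₊ + 1) := ⟨_, rfl⟩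
  refine ⟨B, max (max g₁ g₂) (max g₃ g₄), ?_⟩
  intro G X _ _ _ _ _ c g hA hg R t hs ht
  classical
  have hg1 : g₁ ≤ g := ((le_max_left _ _).trans (le_max_left _ _)).trans hg
  have hg2 : g₂ ≤ g := ((le_max_right _ _).trans (le_max_left _ _)).trans hg
  have hg3 : g₃ ≤ g := ((le_max_left _ _).trans (le_max_right _ _)).trans hg
  have hg4 : g₄ ≤ g := ((le_max_right _ _).trans (le_max_right _ _)).trans hg
  have hne : Nonempty X := by
    rw [← Fintype.card_pos_iff, hA.card]
    have := hA.pos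
    omega
  obtain ⟨ι, _, S, k, hS, hodd, hall, hinj, hk1, hkδ, hsum⟩ := odd_numbers hA
  have hgR : (1 : ℝ) ≤ g := by exact_mod_cast hA.pos
  have hg0 : (0 : ℝ) < g := by linarith
  let N : ι → ℝ := fun i => ((badC c (S i)).card : ℝ) / 2 ^ g
  have hN0 : ∀ i, 0 ≤ N i := fun i => by positivity
  have hM1 : ∀ i, 1 ≤ dM (S i) := fun i => dM_pos (S i) (hS i)
  have hE1 : ∀ i, 1 ≤ dE (S i) := fun i => dE_pos (S i) (hS i)
  have hHM : ∀ i, dH (S i) ≤ dM (S i) := fun i => finrank_hom_le (S i)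
  have hH1 : ∀ i, 1 ≤ dH (S i) := fun i => by
    rw [hkδ i]
    exact Nat.mul_pos (hk1 i) (hE1 i)
  have hterm : ∀ i, k i * dM (S i) ≤ g := fun i =>
    (Finset.single_le_sum (f := fun i => k i * dM (S i)) (fun _ _ => Nat.zero_le _)
      (Finset.mem_univ i)).trans hsum
  -- squares of the dimensions for exponent at most two
  have hsq : ∀ i, dE (S i) + dM (S i) - dH (S i) ≤ 2 →
      dM (S i) * dM (S i) ≤ 2 * (k i * dM (S i)) := by
    intro i hi
    have h1 := hkδ i
    have h2 := hHM i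
    have h3 := hM1 i
    have h4 := hE1 i
    have h5 := hH1 i
    have h6 : dM (S i) ≤ 2 * k i := by
      rcases Nat.lt_or_ge (dH (S i)) (dM (S i)) with h | h
      · have h7 : dE (S i) = 1 := by omega
        rw [h7, mul_one] at h1
        omega
      · have h7 : dE (S i) ≤ 2 := by omega
        have h8 : dH (S i) = dM (S i) := le_antisymm h2 h
        calc dM (S i) = k i * dE (S i) := by rw [← h1, h8]
          _ ≤ k i * 2 := Nat.mul_le_mul_left _ h7
          _ = 2 * k i := by ring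
    calc dM (S i) * dM (S i) ≤ (2 * k i) * dM (S i) := Nat.mul_le_mul_right _ h6
      _ = 2 * (k i * dM (S i)) := by ring
  have hNsharp : ∀ i, dE (S i) + dM (S i) - dH (S i) ≤ 2 →
      N i ≤ C * √(dM (S i) * (1 + Real.log (dM (S i))) / g) ^ (dE (S i) + dM (S i) - dH (S i)) := by
    intro i hi
    have h1 := hsq i hi
    have h2 := hterm i
    exact sharp_bad hC hg1 hA (S i) (hS i) (hodd i) (hHM i) hi (by omega)
  have hlogM : ∀ i, 1 + Real.log (dM (S i)) ≤ dM (S i) := by
    intro i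
    have h1 : (0 : ℝ) < dM (S i) := by exact_mod_cast hM1 i
    have h2 := Real.log_le_sub_one_of_pos h1
    linarith
  have hlogM0 : ∀ i, 0 ≤ Real.log (dM (S i)) := fun i =>
    Real.log_nonneg (by exact_mod_cast hM1 i)
  -- the classes
  obtain ⟨pA, hpA⟩ : ∃ p : ι → Prop, ∀ i, p i ↔
      (dH (S i) < dM (S i) ∧ 3 ≤ dE (S i) + dM (S i) - dH (S i)) := ⟨_, fun _ => Iff.rfl⟩
  obtain ⟨pB, hpB⟩ : ∃ p : ι → Prop, ∀ i, p i ↔
      (dH (S i) = dM (S i) ∧ (Nat.card (Orb (kerM (S i)) X) / 2).Coprime 6 ∧ dM (S i) ≠ 1) :=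
    ⟨_, fun _ => Iff.rfl⟩
  obtain ⟨pR, hpR⟩ : ∃ p : ι → Prop, ∀ i, p i ↔
      (dH (S i) = dM (S i) ∧ 3 ≤ dE (S i)) := ⟨_, fun _ => Iff.rfl⟩
  obtain ⟨pI, hpI⟩ : ∃ p : ι → Prop, ∀ i, p i ↔
      (dH (S i) = dM (S i) ∧ dE (S i) = 1) := ⟨_, fun _ => Iff.rfl⟩
  obtain ⟨pL, hpL⟩ : ∃ p : ι → Prop, ∀ i, p i ↔
      (dE (S i) + dM (S i) - dH (S i) = 2 ∧ M₀ ≤ dM (S i)) := ⟨_, fun _ => Iff.rfl⟩
  obtain ⟨pT, hpT⟩ : ∃ p : ι → Prop, ∀ i, p i ↔
      (dE (S i) + dM (S i) - dH (S i) = 2 ∧ dM (S i) < M₀ ∧ Exc G X c (kerM (S i))) :=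
    ⟨_, fun _ => Iff.rfl⟩
  have hsub : ∀ (p : ι → Prop), ∑ i : {i // p i}, k i.1 * dM (S i.1) ≤ g := by
    intro p
    have h1 : ∑ i : {i // p i}, k i.1 * dM (S i.1)
        = ∑ i ∈ (Finset.univ : Finset {i // p i}).map ⟨Subtype.val, Subtype.val_injective⟩,
          k i * dM (S i) := by
      rw [Finset.sum_map]
      rfl
    refine le_trans (le_of_eq h1) (le_trans ?_ hsum)
    exact Finset.sum_le_univ_sum_of_nonneg (fun _ => Nat.zero_le _)
  -- class A
  have hAsum : ∑ i : {i // pA i}, N i.1 ≤ ε / 6 := by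
    have hdata : ∀ i : {i // pA i}, ∃ n κ s : ℕ, Data g (dM (S i.1)) (k i.1) (dE (S i.1))
        (dH (S i.1)) (kerM (S i.1)).index n κ s (N i.1) := by
      intro i
      have h := (hpA i.1).mp i.2
      exact exists_data4 hA (S i.1) (hS i.1) (hodd i.1) (k i.1) (hk1 i.1) (hkδ i.1) h.1 h.2
    choose n κ s' hdata using hdata
    exact hnum {i // pA i} g (fun i => dM (S i.1)) (fun i => k i.1) (fun i => dE (S i.1))
      (fun i => dH (S i.1)) (fun i => (kerM (S i.1)).index) n κ s' (fun i => N i.1) hg2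
      ((hsub pA).trans (show g ≤ 2 * g by omega)) hdata
  -- class B
  have hBsum : ∑ i : {i // pB i}, N i.1 ≤ ε / 6 :=
    hreg G X c g hA hg3 {i // pB i} (fun i => S i.1) (fun i => k i.1) (fun i => hS i.1)
      (fun i => hodd i.1) (fun i => hk1 i.1) (fun i => hkδ i.1)
      (fun i => ((hpB i.1).mp i.2).1) (fun i => ((hpB i.1).mp i.2).2.1)
      (fun i => ((hpB i.1).mp i.2).2.2) (hsub pB)
  -- class R
  have hRsum : ∑ i : {i // pR i}, N i.1 ≤ ε / 6 := by
    have hdata : ∀ i : {i // pR i}, ∃ n s : ℕ, DataR g (dM (S i.1)) (k i.1) (dE (S i.1))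
        (kerM (S i.1)).index n s (N i.1) := by
      intro i
      have h := (hpR i.1).mp i.2
      exact exists_dataR hA (S i.1) (hS i.1) (hodd i.1) (k i.1) (hk1 i.1) (hkδ i.1) h.1 h.2
    choose n s' hdata using hdata
    exact hR {i // pR i} g (fun i => dM (S i.1)) (fun i => k i.1) (fun i => dE (S i.1))
      (fun i => (kerM (S i.1)).index) n s' (fun i => N i.1) hg4 (hsub pR) hdata
  -- class L
  have hLsum : ∑ i : {i // pL i}, N i.1 ≤ ε / 6 := by
    refine hII {i // pL i} g (fun i => dM (S i.1)) (fun i => N i.1) hA.pos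
      (fun i => ((hpL i.1).mp i.2).2) ?_ ?_
    · calc ∑ i : {i // pL i}, dM (S i.1) * dM (S i.1)
          ≤ ∑ i : {i // pL i}, 2 * (k i.1 * dM (S i.1)) := by
            refine Finset.sum_le_sum fun i _ => hsq i.1 ?_
            exact ((hpL i.1).mp i.2).1.le
        _ = 2 * ∑ i : {i // pL i}, k i.1 * dM (S i.1) := by rw [Finset.mul_sum]
        _ ≤ 2 * g := Nat.mul_le_mul_left _ (hsub pL)
    · intro i
      have h := (hpL i.1).mp i.2
      have h2 := hNsharp i.1 h.1.le
      rw [h.1] at h2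
      exact h2
  -- class I
  have hIsum : ∑ i ∈ Finset.univ.filter pI, N i
      ≤ C * ∑ χ ∈ R, √((χ 1 : ℚ) * (1 + Real.log (χ 1 : ℚ)) / g) := by
    let ch : ι → G → ℚ := fun i σ =>
      LinearMap.trace ℚ (S i) (Pool.Agent.Lib.MP_938ce2_ag_h67.actL (S i) σ)
    have hch1 : ∀ i, ch i 1 = dM (S i) := by
      intro i
      show LinearMap.trace ℚ (S i) (Pool.Agent.Lib.MP_938ce2_ag_h67.actL (S i) 1) = _
      have hfin : Module.Finite ℚ (S i) := Module.Finite.of_injective
        ((S i).subtype.restrictScalars ℚ) Subtype.val_injective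
      rw [Pool.Agent.Lib.MP_938ce2_ag_h67.actL_one, LinearMap.trace_one]
    have hchR : ∀ i ∈ Finset.univ.filter pI, ch i ∈ R := by
      intro i hi
      have h := (hpI i).mp (Finset.mem_filter.mp hi).2
      obtain ⟨ρ, hρ, htr⟩ := exists_oddRep hA (S i) (hodd i) (hM1 i) h.1 h.2
      have h2 := hs _ ρ hρ
      have h3 : (fun σ => (ρ σ).trace) = ch i := funext fun σ => htr σ
      rw [← h3]
      exact h2
    have hchinj : Set.InjOn ch (Finset.univ.filter pI : Finset ι) := by
      intro i _ j _ hij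
      exact hinj i j (iso_of_trace (S i) (S j) (hS i) (hS j) fun σ => congrFun hij σ)
    calc ∑ i ∈ Finset.univ.filter pI, N i
        ≤ ∑ i ∈ Finset.univ.filter pI,
          C * √((ch i 1 : ℚ) * (1 + Real.log (ch i 1 : ℚ)) / g) := by
          refine Finset.sum_le_sum fun i hi => ?_
          have h := (hpI i).mp (Finset.mem_filter.mp hi).2
          have h3 : dE (S i) + dM (S i) - dH (S i) = 1 := by
            rw [h.1, h.2]
            omega
          have h4 := hNsharp i (by omega)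
          rw [h3, pow_one] at h4
          rw [hch1 i, Rat.cast_natCast]
          exact h4
      _ = C * ∑ i ∈ Finset.univ.filter pI,
          √((ch i 1 : ℚ) * (1 + Real.log (ch i 1 : ℚ)) / g) := by rw [Finset.mul_sum]
      _ = C * ∑ χ ∈ (Finset.univ.filter pI).image ch,
          √((χ 1 : ℚ) * (1 + Real.log (χ 1 : ℚ)) / g) := by
          rw [Finset.sum_image hchinj]
      _ ≤ C * ∑ χ ∈ R, √((χ 1 : ℚ) * (1 + Real.log (χ 1 : ℚ)) / g) := by
          apply mul_le_mul_of_nonneg_left _ hC0.le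
          apply Finset.sum_le_sum_of_subset_of_nonneg
          · intro χ hχ
            obtain ⟨i, hi, rfl⟩ := Finset.mem_image.mp hχ
            exact hchR i hi
          · intro _ _ _
            exact Real.sqrt_nonneg _
  -- class T
  have hTsum : ∑ i ∈ Finset.univ.filter pT, N i ≤ B * t.card / g := by
    have hidx : ∀ i ∈ Finset.univ.filter pT, Nat.card (Orb (kerM (S i)) X) ≤ B₁ := by
      intro i hi
      have h := (hpT i).mp (Finset.mem_filter.mp hi).2
      have h1 : Nat.card (Orb (kerM (S i)) X) ≤ (kerM (S i)).index := by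
        rcases Nat.lt_or_ge (dH (S i)) (dM (S i)) with h2 | h2
        · have h3 := hE1 i
          have h4 := index_two hA (S i) (hM1 i) (by omega)
          omega
        · exact (index_eq hA (S i) (hM1 i) (le_antisymm (hHM i) h2)).symm.le
      refine h1.trans ((index_le_mink (S i)).trans ?_)
      rw [hB₁]
      exact Nat.pow_le_pow_right (by norm_num) (Nat.mul_le_mul h.2.1.le h.2.1.le)
    have hB₁B : B₁ ≤ B := by
      rw [hB]
      exact Nat.le_mul_of_pos_right _ (by omega)
    have h1 : ∀ i ∈ Finset.univ.filter pT, kerM (S i) ∈ t := fun i hi =>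
      ht _ ((hpT i).mp (Finset.mem_filter.mp hi).2).2.2 ((hidx i hi).trans hB₁B)
    rw [← Finset.sum_fiberwise_of_maps_to h1]
    have h2 : ∀ i ∈ Finset.univ.filter pT, N i ≤ C * (M₀ * M₀) / g := by
      intro i hi
      have h := (hpT i).mp (Finset.mem_filter.mp hi).2
      have h4 := hNsharp i h.1.le
      have h5 : (0 : ℝ) ≤ dM (S i) := Nat.cast_nonneg _
      have h6 := hlogM i
      have h7 := hlogM0 i
      have h8 : (dM (S i) : ℝ) ≤ M₀ := by exact_mod_cast h.2.1.le
      rw [h.1, Real.sq_sqrt (by positivity)] at h4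
      refine h4.trans ?_
      have h9 : (dM (S i) : ℝ) * (1 + Real.log (dM (S i))) ≤ M₀ * M₀ :=
        mul_le_mul h8 (h6.trans h8) (by linarith) (by linarith)
      calc C * (dM (S i) * (1 + Real.log (dM (S i))) / g)
          = C * (dM (S i) * (1 + Real.log (dM (S i)))) / g := by ring
        _ ≤ C * (M₀ * M₀) / g := div_le_div_of_nonneg_right
            (mul_le_mul_of_nonneg_left h9 hC0.le) hg0.le
    have h3 : ∀ K ∈ t, ∑ i ∈ (Finset.univ.filter pT).filter (fun i => kerM (S i) = K), N i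
        ≤ (B : ℝ) / g := by
      intro K _
      by_cases hem : ((Finset.univ.filter pT).filter (fun i => kerM (S i) = K)).Nonempty
      · obtain ⟨j, hj⟩ := hem
        have hj1 := hidx j (Finset.mem_filter.mp hj).1
        rw [(Finset.mem_filter.mp hj).2] at hj1
        have h4 := ker_count hA S hS hodd hinj K
        have h5 : ((Finset.univ.filter pT).filter (fun i => kerM (S i) = K)).card
            ≤ Nat.card {i // kerM (S i) = K} := by
          rw [Nat.card_eq_fintype_card, Fintype.card_subtype]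
          refine Finset.card_le_card fun i hi => ?_
          rw [Finset.mem_filter]
          exact ⟨Finset.mem_univ _, (Finset.mem_filter.mp hi).2⟩
        have h6 : (((Finset.univ.filter pT).filter (fun i => kerM (S i) = K)).card : ℝ) ≤ B₁ := by
          exact_mod_cast (show _ ≤ B₁ by omega)
        calc _ ≤ ∑ _i ∈ (Finset.univ.filter pT).filter (fun i => kerM (S i) = K),
              C * (M₀ * M₀) / g :=
              Finset.sum_le_sum fun i hi => h2 i (Finset.mem_filter.mp hi).1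
          _ = ((Finset.univ.filter pT).filter (fun i => kerM (S i) = K)).card
              * (C * (M₀ * M₀) / g) := by
              rw [Finset.sum_const, nsmul_eq_mul]
          _ ≤ B₁ * (C * (M₀ * M₀) / g) := mul_le_mul_of_nonneg_right h6 (by positivity)
          _ = B₁ * (C * (M₀ * M₀)) / g := by ring
          _ ≤ (B : ℝ) / g := by
              apply div_le_div_of_nonneg_right _ hg0.le
              rw [hB]
              push_cast
              apply mul_le_mul_of_nonneg_left _ (Nat.cast_nonneg _)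
              have := Nat.le_ceil (C * (M₀ * M₀))
              linarith
      · rw [Finset.not_nonempty_iff_eq_empty.mp hem, Finset.sum_empty]
        positivity
    calc _ ≤ ∑ _K ∈ t, (B : ℝ) / g := Finset.sum_le_sum h3
      _ = B * t.card / g := by
          rw [Finset.sum_const, nsmul_eq_mul]
          ring
  -- all classes
  have hcast : ∀ p : ι → Prop, ∑ i ∈ Finset.univ.filter p, N i = ∑ i : {i // p i}, N i.1 := by
    intro p
    rw [Finset.sum_subtype (Finset.univ.filter p) (p := p) (fun i => by simp)]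
  have hcases : ∀ i, pA i ∨ pB i ∨ pR i ∨ pI i ∨ pL i ∨ pT i := by
    intro i
    rw [hpA, hpB, hpR, hpI, hpL, hpT]
    have h1 := hHM i
    have h2 := hM1 i
    have h3 := hE1 i
    have h4 := hH1 i
    rcases Nat.lt_or_ge (dH (S i)) (dM (S i)) with h | h
    · by_cases he : 3 ≤ dE (S i) + dM (S i) - dH (S i)
      · exact Or.inl ⟨h, he⟩
      · have he2 : dE (S i) + dM (S i) - dH (S i) = 2 := by omega
        rcases Nat.lt_or_ge (dM (S i)) M₀ with h5 | h5
        · refine Or.inr (Or.inr (Or.inr (Or.inr (Or.inr ⟨he2, h5, ?_⟩))))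
          by_contra hex
          exact he (three_of_not_exc hA (S i) (hS i) (hodd i) h4 h hex)
        · exact Or.inr (Or.inr (Or.inr (Or.inr (Or.inl ⟨he2, h5⟩))))
    · have heq : dH (S i) = dM (S i) := le_antisymm h1 h
      by_cases h5 : 3 ≤ dE (S i)
      · exact Or.inr (Or.inr (Or.inl ⟨heq, h5⟩))
      · by_cases h6 : dE (S i) = 1
        · exact Or.inr (Or.inr (Or.inr (Or.inl ⟨heq, h6⟩)))
        · have he2 : dE (S i) + dM (S i) - dH (S i) = 2 := by omega
          rcases Nat.lt_or_ge (dM (S i)) M₀ with h7 | h7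
          · by_cases h8 : (Nat.card (Orb (kerM (S i)) X) / 2).Coprime 6
            · refine Or.inr (Or.inl ⟨heq, h8, ?_⟩)
              intro h9
              have h10 := hkδ i
              rw [heq, h9] at h10
              have h11 : dE (S i) = 2 := by omega
              rw [h11] at h10
              omega
            · refine Or.inr (Or.inr (Or.inr (Or.inr (Or.inr ⟨he2, h7, ?_⟩))))
              refine ⟨inferInstance, fun x k hk => c_free hA (S i) (hodd i) (hM1 i) x k hk,
                fun σ hσ => mem_kerM_of_orb (S i) σ hσ, ?_, h8⟩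
              rw [index_eq hA (S i) (hM1 i) heq]
              omega
          · exact Or.inr (Or.inr (Or.inr (Or.inr (Or.inl ⟨he2, h7⟩))))
  have htot : ∑ i, N i ≤ ∑ i ∈ Finset.univ.filter pA, N i + ∑ i ∈ Finset.univ.filter pB, N i
      + ∑ i ∈ Finset.univ.filter pR, N i + ∑ i ∈ Finset.univ.filter pI, N i
      + ∑ i ∈ Finset.univ.filter pL, N i + ∑ i ∈ Finset.univ.filter pT, N i := by
    simp only [Finset.sum_filter, ← Finset.sum_add_distrib]
    refine Finset.sum_le_sum fun i _ => ?_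
    have h0 := hN0 i
    have hn : ∀ p : Prop, ∀ _ : Decidable p, 0 ≤ (if p then N i else 0) := by
      intro p _
      split_ifs <;> [exact h0; exact le_refl _]
    have h1 := hn (pA i) inferInstance
    have h2 := hn (pB i) inferInstance
    have h3 := hn (pR i) inferInstance
    have h5 := hn (pI i) inferInstance
    have h6 := hn (pL i) inferInstance
    have h7 := hn (pT i) inferInstance
    rcases hcases i with h | h | h | h | h | h
    · have h8 : (if pA i then N i else 0) = N i := if_pos h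
      linarith
    · have h8 : (if pB i then N i else 0) = N i := if_pos h
      linarith
    · have h8 : (if pR i then N i else 0) = N i := if_pos h
      linarith
    · have h8 : (if pI i then N i else 0) = N i := if_pos h
      linarith
    · have h8 : (if pL i then N i else 0) = N i := if_pos h
      linarith
    · have h8 : (if pT i then N i else 0) = N i := if_pos h
      linarith
  have hfinal : ∑ i, N i
      ≤ ε + C * ∑ χ ∈ R, √((χ 1 : ℚ) * (1 + Real.log (χ 1 : ℚ)) / g) + B * t.card / g := by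
    rw [hcast pA, hcast pB, hcast pR, hcast pL] at htot
    linarith
  -- the cover
  have hcover : (Finset.univ.filter fun Φ : Finset X => CMType c Φ ∧ ¬ GeneratedByDivisors G Φ)
      ⊆ (Finset.univ : Finset ι).biUnion fun i => badC c (S i) := by
    intro Φ hΦ
    obtain ⟨hcm, hngd⟩ := (Finset.mem_filter.mp hΦ).2
    have hnd : ¬ Nondeg c Φ := fun h =>
      hngd (generatedByDivisors_of_nondeg hA.comm hA.sq hA.free hcm h)
    obtain ⟨M, hM, hMo, hv⟩ := exists_simple_of_deg hA hcm hnd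
    obtain ⟨i, ⟨e⟩⟩ := hall M hM hMo
    rw [Finset.mem_biUnion]
    exact ⟨i, Finset.mem_univ _, (mem_badC c (S i) Φ).mpr ⟨hcm, M, ⟨e.symm⟩, hv⟩⟩
  rw [Nat.card_eq_fintype_card, Fintype.card_subtype]
  have h1 : ((Finset.univ.filter fun Φ : Finset X =>
      CMType c Φ ∧ ¬ GeneratedByDivisors G Φ).card : ℝ) ≤ ∑ i, ((badC c (S i)).card : ℝ) := by
    exact_mod_cast (Finset.card_le_card hcover).trans Finset.card_biUnion_le
  have h2 : ∑ i, ((badC c (S i)).card : ℝ) = (∑ i, N i) * 2 ^ g := by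
    rw [Finset.sum_mul]
    refine Finset.sum_congr rfl fun i _ => ?_
    show _ = ((badC c (S i)).card : ℝ) / 2 ^ g * 2 ^ g
    rw [div_mul_cancel₀]
    positivity
  calc _ ≤ _ := h1
    _ = (∑ i, N i) * 2 ^ g := h2
    _ ≤ _ := mul_le_mul_of_nonneg_right hfinal (by positivity)

end Pool.Agent.Lib.MP_938ce2_ag_u4
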