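import Mathlib
import Pool.Agent.Lib.MP_938ce2_ag_u3.Field3
import Pool.Agent.Lib.MP_938ce2_ag_u4.Defs4

/-!
Row FieldB: exceptional quotients of bounded size and CM subfields of bounded degree.

Same proof as `exc_of_field` in `MP_938ce2_ag_u3/Field3.lean` (copy it with its private lemmas), with
the set of the `K` which satisfy `Exc` and have `Nat.card (Orb K _) ≤ B`, and cardinalities instead of
sums (`Finset.card_le_card`, `Finset.card_image_of_injOn`).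
-/

set_option autoImplicit false
set_option linter.unusedSectionVars false

namespace Pool.Agent.Lib.MP_938ce2_ag_u4

open Finset Module NumberField
open Pool.Agent.Lib.MP_938ce2_ag_h67 (Orb)
open Pool.Agent.Lib.MP_938ce2_ag_h60 (CMType conj)
open Pool.Agent.Lib.MP_938ce2_ag_u3 (Exc)

section FieldB

open Pool.Agent.Lib.MP_938ce2_ag_u2.H7
open Pool.Agent.Lib.MP_938ce2_ag_h60 (exists_smul_emb)

variable {L E : Type} [Field L] [NumberField L] [IsGalois ℚ L] [Field E] [NumberField E]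

private theorem finrank_pullF (x0 : E →ₐ[ℚ] L) (K : Subgroup (L ≃ₐ[ℚ] L)) [K.Normal] :
    finrank ℚ (pullF x0 K) = Nat.card (Orb K (E →ₐ[ℚ] L)) := by
  have h1 : Nat.card (Orb K (E →ₐ[ℚ] L)) = (K ⊔ x0.fieldRange.fixingSubgroup).index :=
    card_orbits x0 K
  have h4 : Module.finrank ℚ ((pullF x0 K).map x0) = Module.finrank ℚ (pullF x0 K) :=
    ((pullF x0 K).equivMap x0).toLinearEquiv.finrank_eq.symm
  rw [h1, ← h4, finrank_eq_index, fixing_pullF]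

private theorem le_of_pullF_eq (x0 : E →ₐ[ℚ] L) (K K' : Subgroup (L ≃ₐ[ℚ] L)) [K.Normal]
    [K'.Normal]
    (h : pullF x0 K = pullF x0 K')
    (hK' : ∀ σ : L ≃ₐ[ℚ] L, (∀ x : E →ₐ[ℚ] L, ∃ k ∈ K', σ • x = k • x) → σ ∈ K') : K ≤ K' := by
  have h1 : K ⊔ x0.fieldRange.fixingSubgroup = K' ⊔ x0.fieldRange.fixingSubgroup := by
    rw [← fixing_pullF, ← fixing_pullF, h]
  intro σ hσ
  apply hK'
  intro x
  obtain ⟨τ, rfl⟩ := exists_smul_emb x0 x
  have h2 : τ⁻¹ * σ * τ ∈ K' ⊔ x0.fieldRange.fixingSubgroup := by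
    rw [← h1]
    apply Subgroup.mem_sup_left
    have := ‹K.Normal›.conj_mem σ hσ τ⁻¹
    simpa using this
  rw [← SetLike.mem_coe, Subgroup.normal_mul, Set.mem_mul] at h2
  obtain ⟨k, hk, u, hu, hku⟩ := h2
  refine ⟨τ * k * τ⁻¹, ‹K'.Normal›.conj_mem k hk τ, ?_⟩
  have h3 : (τ⁻¹ * σ * τ) • x0 = k • x0 := by
    rw [← hku, mul_smul, mem_fixing_range.1 hu]
  rw [mul_smul, mul_smul, inv_smul_smul, ← h3, mul_smul, mul_smul, smul_inv_smul]

end FieldB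

theorem excB_of_field (L E : Type) [Field L] [NumberField L] [IsGalois ℚ L] [IsCMField L]
    [Field E] [NumberField E] [IsCMField E] [Nonempty (E →ₐ[ℚ] L)] (B : ℕ)
    (t : Finset (IntermediateField ℚ E))
    (ht : ∀ F : IntermediateField ℚ E, IsCMField F → finrank ℚ F ≤ B →
      ¬ (finrank ℚ F / 2).Coprime 6 → ∀ N : IntermediateField ℚ L, IsGalois ℚ N →
        Nonempty (F →ₐ[ℚ] N) → finrank ℚ N ≤ 2 * finrank ℚ F → F ∈ t) :
    ∃ t' : Finset (Subgroup (L ≃ₐ[ℚ] L)),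
      (∀ K, Exc (L ≃ₐ[ℚ] L) (E →ₐ[ℚ] L) (conj L) K → Nat.card (Orb K (E →ₐ[ℚ] L)) ≤ B → K ∈ t') ∧
      t'.card ≤ t.card := by
  classical
  obtain ⟨x0⟩ := (inferInstance : Nonempty (E →ₐ[ℚ] L))
  have hfin : {K : Subgroup (L ≃ₐ[ℚ] L) | Exc (L ≃ₐ[ℚ] L) (E →ₐ[ℚ] L) (conj L) K ∧
      Nat.card (Orb K (E →ₐ[ℚ] L)) ≤ B}.Finite := Set.toFinite _
  refine ⟨hfin.toFinset, fun K hK hB => hfin.mem_toFinset.2 ⟨hK, hB⟩, ?_⟩
  have hmem : ∀ K, K ∈ hfin.toFinset → Exc (L ≃ₐ[ℚ] L) (E →ₐ[ℚ] L) (conj L) K ∧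
      Nat.card (Orb K (E →ₐ[ℚ] L)) ≤ B := fun K hK => hfin.mem_toFinset.1 hK
  have hinj : Set.InjOn (fun K => Pool.Agent.Lib.MP_938ce2_ag_u2.H7.pullF x0 K)
      (hfin.toFinset : Set (Subgroup (L ≃ₐ[ℚ] L))) := by
    intro K hK K' hK' h
    obtain ⟨n1, -, a1, -, -⟩ := (hmem K (Finset.mem_coe.1 hK)).1
    obtain ⟨n2, -, a2, -, -⟩ := (hmem K' (Finset.mem_coe.1 hK')).1
    exact le_antisymm (le_of_pullF_eq x0 K K' h a2) (le_of_pullF_eq x0 K' K h.symm a1)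
  rw [← Finset.card_image_of_injOn hinj]
  refine Finset.card_le_card ?_
  intro F hF
  rw [Finset.mem_image] at hF
  obtain ⟨K, hK, rfl⟩ := hF
  obtain ⟨⟨n1, b1, -, c1, d1⟩, e1⟩ := hmem K hK
  have hG : IsGalois ℚ (IntermediateField.fixedField K) :=
    IsGalois.of_fixedField_normal_subgroup K
  refine ht _ (Pool.Agent.Lib.MP_938ce2_ag_u2.H7.isCMField_pullF x0 K (b1 x0)) ?_ ?_
    (IntermediateField.fixedField K) hG
    ⟨(x0.comp (Pool.Agent.Lib.MP_938ce2_ag_u2.H7.pullF x0 K).val).codRestrict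
      (IntermediateField.fixedField K).toSubalgebra (fun y => y.2)⟩ ?_
  · rw [finrank_pullF x0 K]
    exact e1
  · rw [finrank_pullF x0 K]
    exact d1
  · rw [finrank_pullF x0 K, Pool.Agent.Lib.MP_938ce2_ag_u2.H7.finrank_eq_index,
      IntermediateField.fixingSubgroup_fixedField]
    exact c1

end Pool.Agent.Lib.MP_938ce2_ag_u4
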