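import Mathlib
import Pool.Agent.Lib.MP_938ce2_ag_h60.NumField

/-!
Definitions for the count of the degenerate CM types over an arbitrary CM field, in terms of fields.
-/

set_option autoImplicit false
set_option linter.unusedSectionVars false

namespace Pool.Agent.Lib.MP_938ce2_ag_u4

open Module NumberField
open Pool.Agent.Lib.MP_938ce2_ag_h60 (conj)

/-- The set `R` contains the characters of all representations `ρ` of `Gal(L / ℚ)` over `ℚ` which
commute only with the scalar matrices, map the complex conjugation to `-1` and are trivial on the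
elements which fix some conjugate `x(E)` of `E` (that is, `ρ` is an absolutely irreducible
representation of the Galois group of the largest subfield of `E` which is Galois over `ℚ`). -/
def HasCharacters (L E : Type) [Field L] [NumberField L] [IsCMField L] [Field E] [NumberField E]
    (R : Finset ((L ≃ₐ[ℚ] L) → ℚ)) : Prop :=
  ∀ (m : ℕ) (ρ : (L ≃ₐ[ℚ] L) →* Matrix (Fin m) (Fin m) ℚ), ρ (conj L) = -1 →
    (∀ (σ : L ≃ₐ[ℚ] L) (x : E →ₐ[ℚ] L), (∀ a : E, σ (x a) = x a) → ρ σ = 1) →
    (∀ A : Matrix (Fin m) (Fin m) ℚ, (∀ σ, A * ρ σ = ρ σ * A) → ∃ a : ℚ, A = a • 1) →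
    (fun σ => (ρ σ).trace) ∈ R

/-- The set `t` contains all CM subfields `F` of `E` of degree at most `B` for which `[F : ℚ] / 2` is
not prime to `6` and which embed in a subfield `N` of `L`, Galois over `ℚ`, of degree at most
`2 [F : ℚ]`. -/
def HasSmallFields (L E : Type) [Field L] [NumberField L] [Field E] [NumberField E] (B : ℕ)
    (t : Finset (IntermediateField ℚ E)) : Prop :=
  ∀ F : IntermediateField ℚ E, IsCMField F → finrank ℚ F ≤ B → ¬ (finrank ℚ F / 2).Coprime 6 →
    ∀ N : IntermediateField ℚ L, IsGalois ℚ N → Nonempty (F →ₐ[ℚ] N) →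
      finrank ℚ N ≤ 2 * finrank ℚ F → F ∈ t

end Pool.Agent.Lib.MP_938ce2_ag_u4
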