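import Mathlib
import Pool.Agent.Lib.MP_938ce2_ag_u4.Main4
import Pool.Agent.Lib.MP_938ce2_ag_u4.FieldB
import Pool.Agent.Lib.MP_938ce2_ag_u4.FieldDefs

/-!
Theorem U4.
-/

set_option autoImplicit false
set_option linter.unusedSectionVars false

namespace Pool.Agent.Lib.MP_938ce2_ag_u4

open Finset Module NumberField
open Pool.Agent.Lib.MP_938ce2_ag_h60 (CMType GeneratedByDivisors conj)
open Pool.Agent.Lib.MP_938ce2_ag_h67 (Orb)

theorem theoremU4 : ∃ C : ℝ, ∀ η : ℝ, 0 < η → ∃ B g₀ : ℕ, ∀ (L E : Type) [Field L] [NumberField L]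
      [IsGalois ℚ L] [IsCMField L] [Field E] [NumberField E] [IsCMField E] [Nonempty (E →ₐ[ℚ] L)]
      (g : ℕ), finrank ℚ E = 2 * g → g₀ ≤ g →
      ∀ (R : Finset ((L ≃ₐ[ℚ] L) → ℚ)) (t : Finset (IntermediateField ℚ E)),
      HasCharacters L E R → HasSmallFields L E B t →
      (Nat.card {Φ : Finset (E →ₐ[ℚ] L) //
          CMType (conj L) Φ ∧ ¬ GeneratedByDivisors (L ≃ₐ[ℚ] L) Φ} : ℝ)
        ≤ (η + C * ∑ χ ∈ R, √((χ 1 : ℚ) * (1 + Real.log (χ 1 : ℚ)) / g) + B * t.card / g)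
          * 2 ^ g := by
  obtain ⟨C, hC⟩ := main_G4
  refine ⟨C, ?_⟩
  intro η hη
  obtain ⟨B, g₀, h⟩ := hC η hη
  refine ⟨B, g₀, ?_⟩
  intro L E _ _ _ _ _ _ _ _ g hE hg R t hs ht
  obtain ⟨t', ht1, ht2⟩ := excB_of_field L E B t ht
  have hg1 : 1 ≤ g := by
    have : 0 < finrank ℚ E := finrank_pos
    omega
  have hg0 : (0 : ℝ) < g := by exact_mod_cast hg1
  refine (h (L ≃ₐ[ℚ] L) (E →ₐ[ℚ] L) (conj L) g ⟨?_, ?_, ?_, ?_, ?_⟩ hg R t' ?_ ht1).trans ?_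
  · exact Pool.Agent.Lib.MP_938ce2_ag_h60.conj_comm
  · exact Pool.Agent.Lib.MP_938ce2_ag_h60.conj_mul_self
  · exact fun φ => Pool.Agent.Lib.MP_938ce2_ag_h60.conj_smul_ne φ
  · rw [← hE]
    exact Pool.Agent.Lib.MP_938ce2_ag_h60.card_emb
  · exact hg1
  · intro m ρ hρ
    refine hs m ρ hρ.1 (fun σ x hx => hρ.2.1 σ x ?_) hρ.2.2
    exact AlgHom.ext hx
  · apply mul_le_mul_of_nonneg_right _ (by positivity)
    have h2 : (B : ℝ) * t'.card / g ≤ B * t.card / g := by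
      apply div_le_div_of_nonneg_right _ hg0.le
      exact mul_le_mul_of_nonneg_left (by exact_mod_cast ht2) (Nat.cast_nonneg _)
    linarith

end Pool.Agent.Lib.MP_938ce2_ag_u4
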